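import Mathlib

/-!
# Definitions: Gaussian measure, convex bodies, balancing constants
-/

set_option autoImplicit false

namespace Pool.Agent.Lib.MP_ff773e_gt

open scoped Pointwise

/-- `ℝⁿ` with the Euclidean norm. -/
abbrev Rn (n : ℕ) := EuclideanSpace ℝ (Fin n)

/-- `γₙ(A)`: the standard Gaussian probability measure of `A ⊆ ℝⁿ`, as a real number. -/
noncomputable def gam {n : ℕ} (A : Set (Rn n)) : ℝ :=
  (ProbabilityTheory.stdGaussian (Rn n)).real A

/-- A convex body in `ℝⁿ`: a compact convex set with nonempty interior. -/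
def IsConvexBody {n : ℕ} (V : Set (Rn n)) : Prop :=
  IsCompact V ∧ Convex ℝ V ∧ (interior V).Nonempty

/-- Every `n`-tuple of vectors in the closed Euclidean unit ball of `ℝⁿ` has signs such that the
signed sum lies in `C • W`. -/
def Balances {n : ℕ} (C : ℝ) (W : Set (Rn n)) : Prop :=
  ∀ u : Fin n → Rn n, (∀ i, u i ∈ Metric.closedBall (0 : Rn n) 1) →
    ∃ ε : Fin n → ℝ, (∀ i, ε i = 1 ∨ ε i = -1) ∧ ∑ i, ε i • u i ∈ C • W

/-- `β(B₂ⁿ, W)`: the infimum of the `C > 0` for which `C • W` balances every `n`-tuple of the unit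
ball. -/
noncomputable def beta {n : ℕ} (W : Set (Rn n)) : ℝ :=
  sInf {C : ℝ | 0 < C ∧ Balances C W}

end Pool.Agent.Lib.MP_ff773e_gt
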