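import Mathlib
import Pool.Agent.Lib.MP_ff773e_gt.Defs

/-!
# The balancing constant is attained
-/

set_option autoImplicit false

namespace Pool.Agent.Lib.MP_ff773e_gt

open Set Filter Topology
open scoped Pointwise

variable {n : ℕ}

theorem norm_signed_sum_le (u : Fin n → Rn n) (hu : ∀ i, u i ∈ Metric.closedBall (0 : Rn n) 1)
    (ε : Fin n → ℝ) (hε : ∀ i, ε i = 1 ∨ ε i = -1) : ‖∑ i, ε i • u i‖ ≤ n := by
  refine (norm_sum_le _ _).trans ?_
  have : ∀ i ∈ Finset.univ, ‖ε i • u i‖ ≤ 1 := by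
    intro i _
    have h1 : ‖ε i‖ = 1 := by
      rcases hε i with h | h <;> rw [h] <;> simp
    rw [norm_smul, h1, one_mul]
    simpa using hu i
  refine (Finset.sum_le_sum this).trans ?_
  simp

/-- The set of admissible constants is nonempty. -/
theorem exists_balances {W : Set (Rn n)} (h0 : (0 : Rn n) ∈ interior W) :
    ∃ C : ℝ, 0 < C ∧ Balances C W := by
  rw [mem_interior_iff_mem_nhds, Metric.nhds_basis_closedBall.mem_iff] at h0
  obtain ⟨r, hr, hrW⟩ := h0
  refine ⟨(n + 1) / r, by positivity, ?_⟩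
  intro u hu
  refine ⟨fun _ => 1, fun i => Or.inl rfl, ?_⟩
  have hle := norm_signed_sum_le u hu (fun _ => 1) (fun _ => Or.inl rfl)
  have hpos : 0 < (n + 1) / r := by positivity
  rw [Set.mem_smul_set_iff_inv_smul_mem₀ hpos.ne']
  apply hrW
  rw [mem_closedBall_zero_iff, norm_smul, norm_inv, Real.norm_of_nonneg hpos.le,
    inv_mul_le_iff₀ hpos]
  rw [div_mul_cancel₀ _ hr.ne']
  linarith

/-- A uniform positive lower bound for the admissible constants. -/
theorem lower_bound (hn : 1 ≤ n) {W : Set (Rn n)} {R : ℝ} (hR : 0 < R)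
    (hW : W ⊆ Metric.closedBall 0 R) {C : ℝ} (hC : 0 < C) (h : Balances C W) : 1 / R ≤ C := by
  let i₀ : Fin n := ⟨0, by omega⟩
  obtain ⟨ε, hε, hmem⟩ := h (fun i => if i = i₀ then EuclideanSpace.single i₀ (1 : ℝ) else 0) (by
    intro i
    by_cases hi : i = i₀ <;> simp [hi])
  have hsum : ∑ i, ε i • (if i = i₀ then EuclideanSpace.single i₀ (1 : ℝ) else (0 : Rn n)) =
      ε i₀ • EuclideanSpace.single i₀ (1 : ℝ) := by
    rw [Finset.sum_eq_single i₀]
    · simp
    · intro j _ hj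
      simp [hj]
    · intro h; exact absurd (Finset.mem_univ _) h
  rw [hsum] at hmem
  obtain ⟨w, hw, hwe⟩ := hmem
  have h1 : ‖w‖ ≤ R := by simpa using hW hw
  have h2 : ‖ε i₀ • EuclideanSpace.single i₀ (1 : ℝ)‖ = 1 := by
    have h1 : ‖ε i₀‖ = 1 := by
      rcases hε i₀ with h | h <;> rw [h] <;> simp
    rw [norm_smul, h1]
    simp
  have h3 : C * ‖w‖ = 1 := by
    rw [← h2, ← hwe]
    show C * ‖w‖ = ‖C • w‖
    rw [norm_smul, Real.norm_of_nonneg hC.le]
  rw [div_le_iff₀ hR]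
  nlinarith

/-- For a convex body with `0` in its interior, `beta` is the least admissible constant. -/
theorem isLeast_beta (hn : 1 ≤ n) {W : Set (Rn n)} (hW : IsCompact W)
    (h0 : (0 : Rn n) ∈ interior W) :
    IsLeast {C : ℝ | 0 < C ∧ Balances C W} (beta W) := by
  set T : Set ℝ := {C : ℝ | 0 < C ∧ Balances C W} with hT
  have hne : T.Nonempty := exists_balances h0
  have hbdd : BddBelow T := ⟨0, fun C hC => hC.1.le⟩
  refine ⟨?_, fun C hC => csInf_le hbdd hC⟩
  obtain ⟨R, hR⟩ := hW.isBounded.subset_closedBall (0 : Rn n)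
  have hR' : W ⊆ Metric.closedBall 0 (max R 1) :=
    hR.trans (Metric.closedBall_subset_closedBall (le_max_left _ _))
  have hRpos : 0 < max R 1 := lt_max_of_lt_right one_pos
  have hlow : 1 / max R 1 ≤ beta W := by
    apply le_csInf hne
    intro C hC
    exact lower_bound hn hRpos hR' hC.1 hC.2
  have hpos : 0 < beta W := lt_of_lt_of_le (by positivity) hlow
  refine ⟨hpos, ?_⟩
  intro u hu
  by_contra hcon
  push Not at hcon
  -- finitely many sign patterns
  have hfin : Set.Finite {ε : Fin n → ℝ | ∀ i, ε i = 1 ∨ ε i = -1} := by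
    have : {ε : Fin n → ℝ | ∀ i, ε i = 1 ∨ ε i = -1} = Set.pi univ (fun _ => {1, -1}) := by
      ext ε
      simp
    rw [this]
    exact Set.Finite.pi fun _ => Set.toFinite ({1, -1} : Set ℝ)
  have hev : ∀ ε ∈ {ε : Fin n → ℝ | ∀ i, ε i = 1 ∨ ε i = -1},
      ∀ᶠ C in 𝓝 (beta W), C⁻¹ • ∑ i, ε i • u i ∉ W := by
    intro ε hε
    have h1 : (beta W)⁻¹ • ∑ i, ε i • u i ∈ Wᶜ := by
      intro h2
      apply hcon ε hε
      rw [Set.mem_smul_set_iff_inv_smul_mem₀ hpos.ne']
      exact h2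
    have hcont : ContinuousAt (fun C : ℝ => C⁻¹ • ∑ i, ε i • u i) (beta W) :=
      (continuousAt_inv₀ hpos.ne').smul continuousAt_const
    exact hcont.eventually (hW.isClosed.isOpen_compl.mem_nhds h1)
  have hev' := (Filter.eventually_all_finite hfin).2 hev
  have hfreq : ∃ᶠ C in 𝓝 (beta W), C ∈ T := by
    have := csInf_mem_closure hne hbdd
    rw [mem_closure_iff_frequently] at this
    exact this
  obtain ⟨C, hCT, hC⟩ := (hfreq.and_eventually hev').exists
  obtain ⟨ε, hε, hmem⟩ := hCT.2 u hu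
  rw [Set.mem_smul_set_iff_inv_smul_mem₀ hCT.1.ne'] at hmem
  exact hC ε hε hmem

end Pool.Agent.Lib.MP_ff773e_gt
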