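import Mathlib

/-!
# A widening operator on convex functions

For a function `φ` and a vector `u`, `widen φ u x = inf_{|s| ≤ 2} max (φ (x + (s-1)u)) (φ (x + (s+1)u))`.
For convex `φ` it satisfies `widen φ u x ≥ min (φ (x+u)) (φ (x-u))`, and it keeps convexity,
evenness and Lipschitz bounds.
-/

set_option autoImplicit false

namespace Pool.Agent.Lib.MP_ff773e_gt

open Set

variable {E : Type*} [NormedAddCommGroup E] [NormedSpace ℝ E]

/-- Nonnegative, convex, 1-Lipschitz functions. -/
structure Good (φ : E → ℝ) : Prop where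
  nonneg : ∀ x, 0 ≤ φ x
  conv : ConvexOn ℝ univ φ
  lip : ∀ x y, φ x ≤ φ y + ‖x - y‖

theorem Good.continuous {φ : E → ℝ} (h : Good φ) : Continuous φ := by
  have : LipschitzWith 1 φ := by
    apply LipschitzWith.of_dist_le_mul
    intro x y
    rw [Real.dist_eq, NNReal.coe_one, one_mul, dist_eq_norm, abs_le]
    have h1 := h.lip x y
    have h2 := h.lip y x
    rw [norm_sub_rev] at h2
    constructor <;> linarith
  exact this.continuous

/-- The widening operator. -/
noncomputable def widen (φ : E → ℝ) (u : E) (x : E) : ℝ :=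
  sInf ((fun s : ℝ => max (φ (x + (s - 1) • u)) (φ (x + (s + 1) • u))) '' Icc (-2) 2)

theorem widen_le {φ : E → ℝ} (h : Good φ) (u x : E) (s : ℝ) (hs : s ∈ Icc (-2 : ℝ) 2) :
    widen φ u x ≤ max (φ (x + (s - 1) • u)) (φ (x + (s + 1) • u)) := by
  apply csInf_le
  · refine ⟨0, ?_⟩
    rintro _ ⟨t, -, rfl⟩
    exact le_max_of_le_left (h.nonneg _)
  · exact ⟨s, hs, rfl⟩

theorem le_widen {φ : E → ℝ} (u x : E) (b : ℝ)
    (hb : ∀ s ∈ Icc (-2 : ℝ) 2, b ≤ max (φ (x + (s - 1) • u)) (φ (x + (s + 1) • u))) :
    b ≤ widen φ u x := by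
  apply le_csInf
  · exact ⟨_, ⟨0, by norm_num, rfl⟩⟩
  · rintro _ ⟨t, ht, rfl⟩
    exact hb t ht

theorem exists_widen_eq {φ : E → ℝ} (h : Good φ) (u x : E) :
    ∃ s ∈ Icc (-2 : ℝ) 2, widen φ u x = max (φ (x + (s - 1) • u)) (φ (x + (s + 1) • u)) := by
  have hc := h.continuous
  have hcont : Continuous (fun s : ℝ => max (φ (x + (s - 1) • u)) (φ (x + (s + 1) • u))) := by
    fun_prop
  obtain ⟨s, hs, hmin⟩ := (isCompact_Icc (a := (-2:ℝ)) (b := 2)).exists_isMinOn
    ⟨0, by norm_num⟩ hcont.continuousOn
  refine ⟨s, hs, le_antisymm (widen_le h u x s hs) (le_widen u x _ (fun t ht => hmin ht))⟩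

/-- The key pointwise property. -/
theorem min_le_widen {φ : E → ℝ} (h : Good φ) (u x : E) :
    min (φ (x + u)) (φ (x - u)) ≤ widen φ u x := by
  apply le_widen
  intro s hs
  -- convexity on the segment between x + (s-1)u and x + (s+1)u
  have key : ∀ r : ℝ, s - 1 ≤ r → r ≤ s + 1 →
      φ (x + r • u) ≤ max (φ (x + (s - 1) • u)) (φ (x + (s + 1) • u)) := by
    intro r h1 h2
    have hconv := h.conv.2 (mem_univ (x + (s - 1) • u)) (mem_univ (x + (s + 1) • u))
      (show 0 ≤ (s + 1 - r) / 2 by linarith) (show 0 ≤ (r - (s - 1)) / 2 by linarith) (by ring)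
    have hpt : ((s + 1 - r) / 2) • (x + (s - 1) • u) + ((r - (s - 1)) / 2) • (x + (s + 1) • u)
        = x + r • u := by
      module
    rw [hpt] at hconv
    refine hconv.trans ?_
    rw [smul_eq_mul, smul_eq_mul]
    have m1 := le_max_left (φ (x + (s - 1) • u)) (φ (x + (s + 1) • u))
    have m2 := le_max_right (φ (x + (s - 1) • u)) (φ (x + (s + 1) • u))
    calc (s + 1 - r) / 2 * φ (x + (s - 1) • u) + (r - (s - 1)) / 2 * φ (x + (s + 1) • u)
        ≤ (s + 1 - r) / 2 * max (φ (x + (s - 1) • u)) (φ (x + (s + 1) • u)) +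
          (r - (s - 1)) / 2 * max (φ (x + (s - 1) • u)) (φ (x + (s + 1) • u)) := by
            apply add_le_add
            · exact mul_le_mul_of_nonneg_left m1 (by linarith)
            · exact mul_le_mul_of_nonneg_left m2 (by linarith)
      _ = _ := by ring
  rcases le_total 0 s with h0 | h0
  · refine (min_le_left _ _).trans ?_
    have := key 1 (by linarith [hs.2]) (by linarith)
    rwa [one_smul] at this
  · refine (min_le_right _ _).trans ?_
    have := key (-1) (by linarith) (by linarith [hs.1])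
    rwa [neg_one_smul, ← sub_eq_add_neg] at this

theorem widen_good {φ : E → ℝ} (h : Good φ) (u : E) : Good (widen φ u) where
  nonneg x := le_widen u x 0 (fun s _ => le_max_of_le_left (h.nonneg _))
  conv := by
    refine ⟨convex_univ, ?_⟩
    intro x _ y _ a b ha hb hab
    obtain ⟨s, hs, hsx⟩ := exists_widen_eq h u x
    obtain ⟨t, ht, hty⟩ := exists_widen_eq h u y
    have hst : a * s + b * t ∈ Icc (-2 : ℝ) 2 := by
      constructor
      · nlinarith [hs.1, ht.1, mul_nonneg ha (show 0 ≤ s + 2 by linarith [hs.1]),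
          mul_nonneg hb (show 0 ≤ t + 2 by linarith [ht.1])]
      · nlinarith [hs.2, ht.2, mul_nonneg ha (show 0 ≤ 2 - s by linarith [hs.2]),
          mul_nonneg hb (show 0 ≤ 2 - t by linarith [ht.2])]
    refine (widen_le h u (a • x + b • y) _ hst).trans ?_
    rw [hsx, hty, smul_eq_mul, smul_eq_mul]
    apply max_le
    · have e : a • x + b • y + (a * s + b * t - 1) • u
          = a • (x + (s - 1) • u) + b • (y + (t - 1) • u) := by
        have hb' : b = 1 - a := by linarith
        subst hb'
        module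
      rw [e]
      refine (h.conv.2 (mem_univ _) (mem_univ _) ha hb hab).trans ?_
      rw [smul_eq_mul, smul_eq_mul]
      gcongr
      · exact le_max_left _ _
      · exact le_max_left _ _
    · have e : a • x + b • y + (a * s + b * t + 1) • u
          = a • (x + (s + 1) • u) + b • (y + (t + 1) • u) := by
        have hb' : b = 1 - a := by linarith
        subst hb'
        module
      rw [e]
      refine (h.conv.2 (mem_univ _) (mem_univ _) ha hb hab).trans ?_
      rw [smul_eq_mul, smul_eq_mul]
      gcongr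
      · exact le_max_right _ _
      · exact le_max_right _ _
  lip x y := by
    obtain ⟨s, hs, hsy⟩ := exists_widen_eq h u y
    refine (widen_le h u x s hs).trans ?_
    rw [hsy]
    have h1 := h.lip (x + (s - 1) • u) (y + (s - 1) • u)
    have h2 := h.lip (x + (s + 1) • u) (y + (s + 1) • u)
    rw [add_sub_add_right_eq_sub] at h1 h2
    apply max_le
    · refine h1.trans ?_
      gcongr
      exact le_max_left _ _
    · refine h2.trans ?_
      gcongr
      exact le_max_right _ _

theorem widen_even {φ : E → ℝ} (heven : ∀ x, φ (-x) = φ x) (u x : E) :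
    widen φ u (-x) = widen φ u x := by
  unfold widen
  congr 1
  ext r
  constructor
  · rintro ⟨s, hs, rfl⟩
    refine ⟨-s, ⟨by linarith [hs.2], by linarith [hs.1]⟩, ?_⟩
    show max (φ (x + (-s - 1) • u)) (φ (x + (-s + 1) • u)) =
      max (φ (-x + (s - 1) • u)) (φ (-x + (s + 1) • u))
    have e1 : -x + (s - 1) • u = -(x + (-s + 1) • u) := by module
    have e2 : -x + (s + 1) • u = -(x + (-s - 1) • u) := by module
    rw [e1, e2, heven, heven, max_comm]
  · rintro ⟨s, hs, rfl⟩
    refine ⟨-s, ⟨by linarith [hs.2], by linarith [hs.1]⟩, ?_⟩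
    show max (φ (-x + (-s - 1) • u)) (φ (-x + (-s + 1) • u)) =
      max (φ (x + (s - 1) • u)) (φ (x + (s + 1) • u))
    have e1 : -x + (-s - 1) • u = -(x + (s + 1) • u) := by module
    have e2 : -x + (-s + 1) • u = -(x + (s - 1) • u) := by module
    rw [e1, e2, heven, heven, max_comm]

/-- Restriction to a line. -/
theorem widen_line (φ : E → ℝ) (y e : E) (a t : ℝ) :
    widen φ (a • e) (y + t • e) = widen (fun r : ℝ => φ (y + r • e)) a t := by
  unfold widen
  congr 1
  ext r
  constructor
  · rintro ⟨s, hs, rfl⟩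
    refine ⟨s, hs, ?_⟩
    show max (φ (y + (t + (s - 1) • a) • e)) (φ (y + (t + (s + 1) • a) • e)) =
      max (φ (y + t • e + (s - 1) • a • e)) (φ (y + t • e + (s + 1) • a • e))
    simp only [smul_eq_mul, add_smul, mul_smul, add_assoc]
  · rintro ⟨s, hs, rfl⟩
    refine ⟨s, hs, ?_⟩
    show max (φ (y + t • e + (s - 1) • a • e)) (φ (y + t • e + (s + 1) • a • e)) =
      max (φ (y + (t + (s - 1) • a) • e)) (φ (y + (t + (s + 1) • a) • e))
    simp only [smul_eq_mul, add_smul, mul_smul, add_assoc]

theorem Good.line {φ : E → ℝ} (h : Good φ) (y e : E) (he : ‖e‖ = 1) :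
    Good (fun r : ℝ => φ (y + r • e)) where
  nonneg _ := h.nonneg _
  conv := by
    refine ⟨convex_univ, ?_⟩
    intro r _ s _ a b ha hb hab
    show φ (y + (a • r + b • s) • e) ≤ a • φ (y + r • e) + b • φ (y + s • e)
    have e1 : y + (a • r + b • s) • e = a • (y + r • e) + b • (y + s • e) := by
      have hb' : b = 1 - a := by linarith
      subst hb'
      simp only [smul_eq_mul]
      module
    rw [e1]
    exact h.conv.2 (mem_univ _) (mem_univ _) ha hb hab
  lip r s := by
    have := h.lip (y + r • e) (y + s • e)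
    rw [add_sub_add_left_eq_sub, ← sub_smul, norm_smul, he, mul_one] at this
    exact this

end Pool.Agent.Lib.MP_ff773e_gt
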