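import Mathlib
import Pool.Agent.Lib.MP_ff773e_gt.Widen

/-!
# The one-dimensional inequality for the widening operator
-/

set_option autoImplicit false

namespace Pool.Agent.Lib.MP_ff773e_gt

open Set MeasureTheory ProbabilityTheory

local instance : IsProbabilityMeasure (gaussianReal 0 1) := inferInstance

theorem pdf_eq (x : ℝ) : gaussianPDFReal 0 1 x = (Real.sqrt (2 * Real.pi))⁻¹ * Real.exp (-x ^ 2 / 2) := by
  rw [gaussianPDFReal_def]; simp

theorem gauss_real_eq (s : Set ℝ) :
    (gaussianReal 0 1).real s = ∫ x in s, gaussianPDFReal 0 1 x := by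
  rw [Measure.real, gaussianReal_apply_eq_integral 0 (by norm_num) s, ENNReal.toReal_ofReal]
  exact setIntegral_nonneg_of_ae (Filter.Eventually.of_forall (gaussianPDFReal_nonneg 0 1))

theorem gauss_lower :
    (Real.sqrt (2 * Real.pi))⁻¹ * Real.exp (-2) ≤ (gaussianReal 0 1).real (Icc (-2) (-1)) := by
  rw [gauss_real_eq]
  have h1 : ∫ x in Icc (-2:ℝ) (-1), (Real.sqrt (2 * Real.pi))⁻¹ * Real.exp (-2) =
      (Real.sqrt (2 * Real.pi))⁻¹ * Real.exp (-2) := by
    rw [setIntegral_const, measureReal_def, Real.volume_Icc]
    norm_num
  rw [← h1]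
  apply setIntegral_mono_on
  · exact integrableOn_const (by simp)
  · exact (integrable_gaussianPDFReal 0 1).integrableOn
  · exact measurableSet_Icc
  · intro x hx
    rw [pdf_eq]
    apply mul_le_mul_of_nonneg_left _ (by positivity)
    apply Real.exp_le_exp.2
    nlinarith [hx.1, hx.2]

theorem gauss_upper (s a : ℝ) (ha : 0 < a) :
    (gaussianReal 0 1).real (Icc (s - a) (s + a)) ≤
      (Real.sqrt (2 * Real.pi))⁻¹ * (2 * a * Real.exp (1 / 2 + a - s)) := by
  rw [gauss_real_eq]
  have h1 : ∫ x in Icc (s - a) (s + a), (Real.sqrt (2 * Real.pi))⁻¹ * Real.exp (1 / 2 + a - s) =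
      (Real.sqrt (2 * Real.pi))⁻¹ * (2 * a * Real.exp (1 / 2 + a - s)) := by
    rw [setIntegral_const, measureReal_def, Real.volume_Icc, ENNReal.toReal_ofReal (by linarith)]
    rw [smul_eq_mul]; ring
  rw [← h1]
  apply setIntegral_mono_on
  · exact (integrable_gaussianPDFReal 0 1).integrableOn
  · exact integrableOn_const (by simp)
  · exact measurableSet_Icc
  · intro x hx
    rw [pdf_eq]
    apply mul_le_mul_of_nonneg_left _ (by positivity)
    apply Real.exp_le_exp.2
    nlinarith [hx.1, hx.2, sq_nonneg (x - 1)]

theorem num_bound (a : ℝ) (ha : 0 < a) (ha' : a ≤ 1 / 1000) :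
    4 * a * Real.exp (9 / 2 + a) ≤ 1 := by
  have h1 : Real.exp (9 / 2 + a) ≤ Real.exp 5 := Real.exp_le_exp.2 (by linarith)
  have h2 : Real.exp 5 ≤ 150 := by
    have h3 : Real.exp 5 = Real.exp 1 ^ 5 := by rw [← Real.exp_nat_mul]; norm_num
    rw [h3]
    have h4 := Real.exp_one_lt_d9
    calc Real.exp 1 ^ 5 ≤ (2.7182818286 : ℝ) ^ 5 := by gcongr
      _ ≤ 150 := by norm_num
  have h5 : 0 < Real.exp (9 / 2 + a) := Real.exp_pos _
  calc 4 * a * Real.exp (9 / 2 + a) ≤ 4 * (1 / 1000) * 150 := by
        gcongr
        exact h1.trans h2
    _ ≤ 1 := by norm_num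

theorem integrable_exp_neg {E : Type*} [NormedAddCommGroup E] [NormedSpace ℝ E]
    [MeasurableSpace E] [BorelSpace E] [SecondCountableTopology E]
    (μ : Measure E) [IsProbabilityMeasure μ] {φ : E → ℝ} (h : Good φ) :
    Integrable (fun x => Real.exp (-φ x)) μ := by
  have hc : Continuous (fun x => Real.exp (-φ x)) := by
    have := h.continuous
    fun_prop
  apply Integrable.of_bound (C := 1) hc.aestronglyMeasurable
  refine Filter.Eventually.of_forall (fun x => ?_)
  rw [Real.norm_of_nonneg (Real.exp_pos _).le]
  exact Real.exp_le_one_iff.2 (by linarith [h.nonneg x])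

theorem nonneg_of_div (x y : ℝ) (hy : 0 < y) (h : 0 ≤ x / y) : 0 ≤ x := by
  have := mul_nonneg h hy.le
  rwa [div_mul_cancel₀ _ hy.ne'] at this

section
variable {φ : ℝ → ℝ} (h : Good φ) (a s : ℝ) (ha : 0 < a) (hs : φ (s - a) = φ (s + a))
include h ha hs

theorem inside_le (t : ℝ) (h1 : s - a ≤ t) (h2 : t ≤ s + a) : φ t ≤ φ (s + a) := by
  have hconv := h.conv.2 (mem_univ (s - a)) (mem_univ (s + a))
    (show 0 ≤ (s + a - t) / (2 * a) from div_nonneg (by linarith) (by linarith))
    (show 0 ≤ (t - (s - a)) / (2 * a) from div_nonneg (by linarith) (by linarith))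
    (by field_simp; ring)
  have hpt : ((s + a - t) / (2 * a)) • (s - a) + ((t - (s - a)) / (2 * a)) • (s + a) = t := by
    simp only [smul_eq_mul]; field_simp; ring
  rw [hpt, hs, smul_eq_mul, smul_eq_mul, ← add_mul] at hconv
  have e : (s + a - t) / (2 * a) + (t - (s - a)) / (2 * a) = 1 := by field_simp; ring
  rwa [e, one_mul] at hconv

theorem right_mono (t t' : ℝ) (h1 : s + a ≤ t) (h2 : t ≤ t') : φ t ≤ φ t' := by
  rcases h2.eq_or_lt with h2 | h2
  · rw [h2]
  -- first φ t ≥ φ (s+a)
  have hge : φ (s + a) ≤ φ t := by
    rcases h1.eq_or_lt with h1 | h1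
    · rw [h1]
    · have := h.conv.slope_mono_adjacent (mem_univ (s - a)) (mem_univ t)
        (show s - a < s + a by linarith) h1
      rw [hs, sub_self, zero_div] at this
      have h3 := nonneg_of_div _ _ (show 0 < t - (s + a) by linarith) this
      linarith
  have := h.conv.slope_mono_adjacent (mem_univ (s - a)) (mem_univ t')
    (show s - a < t by linarith) h2
  have h3 : 0 ≤ (φ t - φ (s - a)) / (t - (s - a)) :=
    div_nonneg (by rw [hs]; linarith) (by linarith)
  have h4 := nonneg_of_div _ _ (show 0 < t' - t by linarith) (h3.trans this)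
  linarith

theorem left_mono (t t' : ℝ) (h1 : t' ≤ s - a) (h2 : t ≤ t') : φ t' ≤ φ t := by
  rcases h2.eq_or_lt with h2 | h2
  · rw [h2]
  have hge : φ (s - a) ≤ φ t' := by
    rcases h1.eq_or_lt with h1 | h1
    · rw [h1]
    · have := h.conv.slope_mono_adjacent (mem_univ t') (mem_univ (s + a)) h1
        (show s - a < s + a by linarith)
      rw [hs, sub_self, zero_div] at this
      by_contra hcon
      push Not at hcon
      have h5 : 0 < (φ (s + a) - φ t') / (s - a - t') := div_pos (by rw [← hs]; linarith) (by linarith)
      linarith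
  have := h.conv.slope_mono_adjacent (mem_univ t) (mem_univ (s + a)) h2
    (show t' < s + a by linarith)
  have h3 : (φ (s + a) - φ t') / (s + a - t') ≤ 0 :=
    div_nonpos_of_nonpos_of_nonneg (by rw [← hs]; linarith) (by linarith)
  by_contra hcon
  push Not at hcon
  have h5 : 0 < (φ t' - φ t) / (t' - t) := div_pos (by linarith) (by linarith)
  linarith

theorem widen_mid (t : ℝ) (h1 : s - 2 * a ≤ t) (h2 : t ≤ s + 2 * a) :
    widen φ a t ≤ φ (s + a) := by
  have hmem : (s - t) / a ∈ Icc (-2 : ℝ) 2 := by
    constructor
    · rw [le_div_iff₀ ha]; linarith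
    · rw [div_le_iff₀ ha]; linarith
  refine (widen_le h a t _ hmem).trans ?_
  have e1 : t + ((s - t) / a - 1) • a = s - a := by
    simp only [smul_eq_mul]; field_simp; ring
  have e2 : t + ((s - t) / a + 1) • a = s + a := by
    simp only [smul_eq_mul]; field_simp; ring
  rw [e1, e2, hs, max_self]

theorem widen_right (t : ℝ) (h1 : s + a ≤ t) : widen φ a t ≤ φ t := by
  refine (widen_le h a t (-1) (by norm_num)).trans ?_
  have e1 : t + ((-1 : ℝ) - 1) • a = t - 2 * a := by simp only [smul_eq_mul]; ring
  have e2 : t + ((-1 : ℝ) + 1) • a = t := by simp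
  rw [e1, e2]
  apply max_le _ le_rfl
  rcases le_total (t - 2 * a) (s + a) with h3 | h3
  · exact (inside_le h a s ha hs _ (by linarith) h3).trans (right_mono h a s ha hs _ _ le_rfl h1)
  · exact right_mono h a s ha hs _ _ h3 (by linarith)

theorem widen_left (t : ℝ) (h1 : t ≤ s - 2 * a) : widen φ a t ≤ φ (t + a) := by
  refine (widen_le h a t 2 (by norm_num)).trans ?_
  have e1 : t + ((2 : ℝ) - 1) • a = t + a := by simp only [smul_eq_mul]; ring
  have e2 : t + ((2 : ℝ) + 1) • a = t + 3 * a := by simp only [smul_eq_mul]; ring
  rw [e1, e2]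
  apply max_le le_rfl
  rcases le_total (t + 3 * a) (s - a) with h3 | h3
  · exact left_mono h a s ha hs _ _ h3 (by linarith)
  · refine (inside_le h a s ha hs _ h3 (by linarith)).trans ?_
    rw [← hs]
    exact left_mono h a s ha hs _ _ le_rfl (by linarith)

/-- The case where the balanced point `s` is nonnegative. -/
theorem oneDim_nonneg (ha' : a ≤ 1 / 1000) (hs0 : 0 ≤ s) :
    ∫ t, Real.exp (-φ t) ∂(gaussianReal 0 1) ≤ ∫ t, Real.exp (-widen φ a t) ∂(gaussianReal 0 1) := by
  -- minimum on the window
  obtain ⟨tm, htm, hmin⟩ := (isCompact_Icc (a := s - a) (b := s + a)).exists_isMinOn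
    ⟨s, by constructor <;> linarith⟩ h.continuous.continuousOn
  set m := φ tm with hm
  set M := φ (s + a) with hM
  have hmM : m ≤ M := inside_le h a s ha hs tm htm.1 htm.2
  set d := M - m with hd
  have hd0 : 0 ≤ d := by linarith
  -- constants
  set c1 : ℝ := Real.exp (-m) * Real.exp (-(s + 2)) * (1 - Real.exp (-(d / 2))) with hc1
  set c2 : ℝ := Real.exp (-m) * (1 - Real.exp (-d)) with hc2
  have hexp1 : 0 ≤ 1 - Real.exp (-(d / 2)) := by
    have := Real.exp_le_one_iff.2 (show -(d / 2) ≤ 0 by linarith)
    linarith
  have hexp2 : 0 ≤ 1 - Real.exp (-d) := by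
    have := Real.exp_le_one_iff.2 (show -d ≤ 0 by linarith)
    linarith
  have hc2le : c2 ≤ Real.exp (-m) * (2 * (1 - Real.exp (-(d / 2)))) := by
    rw [hc2]
    apply mul_le_mul_of_nonneg_left _ (Real.exp_pos _).le
    have e : Real.exp (-d) = Real.exp (-(d / 2)) * Real.exp (-(d / 2)) := by
      rw [← Real.exp_add]; congr 1; ring
    rw [e]
    have h1 := Real.exp_pos (-(d / 2))
    nlinarith
  have hpoint : ∀ t, (Icc (-2 : ℝ) (-1)).indicator (fun _ => c1) t
      - (Icc (s - a) (s + a)).indicator (fun _ => c2) t ≤ Real.exp (-widen φ a t) - Real.exp (-φ t) := by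
    intro t
    rcases lt_or_ge t (s - a) with h1 | h1
    · have hni : t ∉ Icc (s - a) (s + a) := fun hh => absurd hh.1 (not_le.2 h1)
      rw [indicator_of_notMem hni, sub_zero]
      rcases lt_or_ge t (s - 2 * a) with h2 | h2
      · have hw := widen_left h a s ha hs t h2.le
        have hle : φ (t + a) ≤ φ t := left_mono h a s ha hs _ _ (by linarith) (by linarith)
        have hF : Real.exp (-φ (t + a)) - Real.exp (-φ t) ≤
            Real.exp (-widen φ a t) - Real.exp (-φ t) := by
          have := Real.exp_le_exp.2 (neg_le_neg hw)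
          linarith
        refine le_trans ?_ hF
        by_cases ht : t ∈ Icc (-2 : ℝ) (-1)
        · rw [indicator_of_mem ht]
          -- slope bound
          have hslope : d / 2 ≤ φ t - φ (t + a) := by
            rcases htm.1.eq_or_lt with h3 | h3
            · have : d = 0 := by
                rw [hd, hm, ← h3, hs, sub_self]
              rw [this]; linarith
            · have hx1 : t + a ≤ s - a := by linarith
              have s1 : slope φ (t + a) t ≤ slope φ (t + a) tm :=
                h.conv.slope_mono (mem_univ _) ⟨mem_univ _, by simp [ha.ne']⟩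
                  ⟨mem_univ _, by
                    intro hh
                    have hh' : tm = t + a := hh
                    linarith⟩ (by linarith)
              have s2 : slope φ tm (t + a) ≤ slope φ tm (s - a) :=
                h.conv.slope_mono (mem_univ _) ⟨mem_univ _, by
                    intro hh
                    have hh' : t + a = tm := hh
                    linarith⟩
                  ⟨mem_univ _, by
                    intro hh
                    have hh' : s - a = tm := hh
                    linarith⟩ hx1
              rw [slope_comm φ tm (t + a)] at s2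
              have s3 := s1.trans s2
              rw [slope_def_field, slope_def_field, hs, ← hm] at s3
              have e1 : (φ t - φ (t + a)) / (t - (t + a)) = -((φ t - φ (t + a)) / a) := by
                have : t - (t + a) = -a := by ring
                rw [this, div_neg]
              have e2 : (M - m) / (s - a - tm) ≤ -(d / (2 * a)) := by
                have h5 : 0 < tm - (s - a) := by linarith
                have h6 : tm - (s - a) ≤ 2 * a := by linarith [htm.2]
                have e3 : (M - m) / (s - a - tm) = -(d / (tm - (s - a))) := by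
                  have : s - a - tm = -(tm - (s - a)) := by ring
                  rw [this, div_neg]
                rw [e3]
                apply neg_le_neg
                exact div_le_div_of_nonneg_left hd0 h5 h6
              rw [e1] at s3
              have h7 := s3.trans e2
              have h8 : d / (2 * a) ≤ (φ t - φ (t + a)) / a := by linarith
              rw [div_le_div_iff₀ (by linarith) ha] at h8
              have h9 : d * a ≤ (2 * (φ t - φ (t + a))) * a := by linarith
              have h10 := le_of_mul_le_mul_right h9 ha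
              linarith
          have hval : φ (t + a) ≤ m + (s + 2) := by
            have h3 := h.lip (t + a) tm
            rw [Real.norm_eq_abs, abs_sub_comm, abs_of_nonneg (by linarith [htm.1])] at h3
            have h4 := htm.2
            have h5 := ht.1
            have h6 : φ tm = m := rfl
            linarith
          have e : Real.exp (-φ (t + a)) - Real.exp (-φ t) =
              Real.exp (-φ (t + a)) * (1 - Real.exp (-(φ t - φ (t + a)))) := by
            rw [mul_sub, mul_one, ← Real.exp_add]
            congr 2; ring
          rw [e, hc1, ← Real.exp_add]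
          apply mul_le_mul
          · apply Real.exp_le_exp.2; linarith
          · have := Real.exp_le_exp.2 (neg_le_neg hslope)
            linarith
          · exact hexp1
          · exact (Real.exp_pos _).le
        · rw [indicator_of_notMem ht]
          have := Real.exp_le_exp.2 (neg_le_neg hle)
          linarith
      · have hnj : t ∉ Icc (-2 : ℝ) (-1) := fun hh => by
          have := hh.2
          linarith
        rw [indicator_of_notMem hnj]
        have hw := widen_mid h a s ha hs t h2 (by linarith)
        have h3 : M ≤ φ t := by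
          rw [← hs]; exact left_mono h a s ha hs _ _ le_rfl h1.le
        have := Real.exp_le_exp.2 (neg_le_neg (hw.trans h3))
        linarith
    · have hnj : t ∉ Icc (-2 : ℝ) (-1) := fun hh => by
        have := hh.2
        linarith
      rw [indicator_of_notMem hnj, zero_sub]
      rcases le_or_gt t (s + a) with h2 | h2
      · rw [indicator_of_mem (show t ∈ Icc (s - a) (s + a) from ⟨h1, h2⟩)]
        have hw := widen_mid h a s ha hs t (by linarith) (by linarith)
        have h3 : m ≤ φ t := hmin ⟨h1, h2⟩
        have e1 := Real.exp_le_exp.2 (neg_le_neg hw)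
        have e2 := Real.exp_le_exp.2 (neg_le_neg h3)
        have e3 : c2 = Real.exp (-m) - Real.exp (-M) := by
          rw [hc2, mul_sub, mul_one, ← Real.exp_add]
          congr 2; rw [hd]; ring
        rw [e3]
        linarith
      · have hni : t ∉ Icc (s - a) (s + a) := fun hh => absurd hh.2 (not_le.2 h2)
        rw [indicator_of_notMem hni, neg_zero]
        have hw := widen_right h a s ha hs t h2.le
        have := Real.exp_le_exp.2 (neg_le_neg hw)
        linarith
  -- integrate
  have hi1 := integrable_exp_neg (gaussianReal 0 1) h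
  have hi2 := integrable_exp_neg (gaussianReal 0 1) (widen_good h a)
  have hI1 : Integrable ((Icc (-2 : ℝ) (-1)).indicator (fun _ => c1)) (gaussianReal 0 1) :=
    (integrable_const c1).indicator measurableSet_Icc
  have hI2 : Integrable ((Icc (s - a) (s + a)).indicator (fun _ => c2)) (gaussianReal 0 1) :=
    (integrable_const c2).indicator measurableSet_Icc
  have hint := integral_mono (hI1.sub hI2) (hi2.sub hi1) hpoint
  rw [integral_sub' hI1 hI2, integral_sub' hi2 hi1, integral_indicator_const _ measurableSet_Icc,
    integral_indicator_const _ measurableSet_Icc, smul_eq_mul, smul_eq_mul] at hint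
  have hfinal : (gaussianReal 0 1).real (Icc (s - a) (s + a)) * c2 ≤
      (gaussianReal 0 1).real (Icc (-2) (-1)) * c1 := by
    set K := (Real.sqrt (2 * Real.pi))⁻¹ with hK
    have hKpos : 0 < K := by positivity
    have g1 := gauss_lower
    have g2 := gauss_upper s a ha
    have hc2' : 0 ≤ c2 := mul_nonneg (Real.exp_pos _).le hexp2
    have hc1' : 0 ≤ c1 := by positivity
    calc (gaussianReal 0 1).real (Icc (s - a) (s + a)) * c2
        ≤ (K * (2 * a * Real.exp (1 / 2 + a - s))) *
            (Real.exp (-m) * (2 * (1 - Real.exp (-(d / 2))))) := by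
          apply mul_le_mul g2 hc2le hc2' (by positivity)
      _ = (K * Real.exp (-2)) * (Real.exp (-m) * Real.exp (-(s + 2)) * (1 - Real.exp (-(d / 2)))) *
            (4 * a * Real.exp (9 / 2 + a)) := by
          have e : Real.exp (1 / 2 + a - s) = Real.exp (-2) * Real.exp (-(s + 2)) *
              Real.exp (9 / 2 + a) := by
            rw [← Real.exp_add, ← Real.exp_add]; congr 1; ring
          rw [e]; ring
      _ ≤ (K * Real.exp (-2)) * (Real.exp (-m) * Real.exp (-(s + 2)) * (1 - Real.exp (-(d / 2)))) * 1 := by
          apply mul_le_mul_of_nonneg_left (num_bound a ha ha')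
          apply mul_nonneg (by positivity)
          exact hc1'
      _ ≤ (gaussianReal 0 1).real (Icc (-2) (-1)) * c1 := by
          rw [mul_one]
          exact mul_le_mul_of_nonneg_right g1 hc1'
  linarith

end

/-- The one-dimensional inequality. -/
theorem oneDim {φ : ℝ → ℝ} (h : Good φ) (a : ℝ) (ha : 0 < a) (ha' : a ≤ 1 / 1000) :
    ∫ t, Real.exp (-φ t) ∂(gaussianReal 0 1) ≤ ∫ t, Real.exp (-widen φ a t) ∂(gaussianReal 0 1) := by
  by_cases hex : ∃ s, φ (s - a) = φ (s + a)
  · obtain ⟨s, hs⟩ := hex
    rcases le_total 0 s with hs0 | hs0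
    · exact oneDim_nonneg h a s ha hs ha' hs0
    · -- reflect
      let φ' : ℝ → ℝ := fun t => φ (-t)
      have hφ' : Good φ' :=
        { nonneg := fun x => h.nonneg _
          conv := by
            refine ⟨convex_univ, ?_⟩
            intro x _ y _ α β hα hβ hαβ
            show φ (-(α • x + β • y)) ≤ α • φ (-x) + β • φ (-y)
            have e : -(α • x + β • y) = α • (-x) + β • (-y) := by
              simp only [smul_eq_mul]; ring
            rw [e]
            exact h.conv.2 (mem_univ _) (mem_univ _) hα hβ hαβ
          lip := by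
            intro x y
            have := h.lip (-x) (-y)
            have e : -x - -y = -(x - y) := by ring
            rw [e, norm_neg] at this
            exact this }
      have hw : ∀ t, widen φ' a t = widen φ a (-t) := by
        intro t
        unfold widen
        congr 1
        ext r
        constructor
        · rintro ⟨q, hq, rfl⟩
          refine ⟨-q, ⟨by linarith [hq.2], by linarith [hq.1]⟩, ?_⟩
          show max (φ (-t + (-q - 1) • a)) (φ (-t + (-q + 1) • a)) =
            max (φ (-(t + (q - 1) • a))) (φ (-(t + (q + 1) • a)))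
          rw [max_comm]
          congr 2 <;> (simp only [smul_eq_mul]; ring)
        · rintro ⟨q, hq, rfl⟩
          refine ⟨-q, ⟨by linarith [hq.2], by linarith [hq.1]⟩, ?_⟩
          show max (φ (-(t + (-q - 1) • a))) (φ (-(t + (-q + 1) • a))) =
            max (φ (-t + (q - 1) • a)) (φ (-t + (q + 1) • a))
          rw [max_comm]
          congr 2 <;> (simp only [smul_eq_mul]; ring)
      have hs' : φ' (-s - a) = φ' (-s + a) := by
        show φ (-(-s - a)) = φ (-(-s + a))
        have e1 : -(-s - a) = s + a := by ring
        have e2 : -(-s + a) = s - a := by ring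
        rw [e1, e2, hs]
      have hmain := oneDim_nonneg hφ' a (-s) ha hs' ha' (by linarith)
      have hsymm : ∀ G : ℝ → ℝ, ∫ t, G (-t) ∂(gaussianReal 0 1) = ∫ t, G t ∂(gaussianReal 0 1) := by
        intro G
        have h1 : (gaussianReal 0 1).map (fun x => -x) = gaussianReal 0 1 := by
          have := gaussianReal_map_neg (μ := 0) (v := 1)
          rwa [neg_zero] at this
        have h2 : ∫ t, G t ∂((gaussianReal 0 1).map (fun x => -x)) =
            ∫ t, G (-t) ∂(gaussianReal 0 1) :=
          (Homeomorph.neg ℝ).measurableEmbedding.integral_map G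
        rw [h1] at h2
        exact h2.symm
      simp only [hw] at hmain
      rw [hsymm (fun t => Real.exp (-widen φ a t))] at hmain
      rw [← hsymm (fun t => Real.exp (-φ t))]
      exact hmain
  · push Not at hex
    -- no balanced point: widen φ a ≤ φ pointwise
    have hcont : Continuous (fun s => φ (s + a) - φ (s - a)) := by
      have := h.continuous
      fun_prop
    have hle : ∀ t, widen φ a t ≤ φ t := by
      have hsign : (∀ s, φ (s - a) < φ (s + a)) ∨ (∀ s, φ (s + a) < φ (s - a)) := by
        by_contra hcon
        push Not at hcon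
        obtain ⟨⟨x, hx⟩, ⟨y, hy⟩⟩ := hcon
        have hx' : φ (x + a) - φ (x - a) ≤ 0 := by linarith
        have hy' : 0 ≤ φ (y + a) - φ (y - a) := by linarith
        obtain ⟨z, hz⟩ := mem_range_of_exists_le_of_exists_ge hcont ⟨x, hx'⟩ ⟨y, hy'⟩
        exact hex z (by have hz' : φ (z + a) - φ (z - a) = 0 := hz; linarith)
      intro t
      rcases hsign with hp | hp
      · refine (widen_le h a t (-1) (by norm_num)).trans ?_
        have e1 : t + ((-1 : ℝ) - 1) • a = t - a - a := by simp only [smul_eq_mul]; ring
        have e2 : t + ((-1 : ℝ) + 1) • a = t := by simp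
        rw [e1, e2]
        have := hp (t - a)
        rw [sub_add_cancel] at this
        exact max_le this.le le_rfl
      · refine (widen_le h a t 1 (by norm_num)).trans ?_
        have e1 : t + ((1 : ℝ) - 1) • a = t := by simp
        have e2 : t + ((1 : ℝ) + 1) • a = t + a + a := by simp only [smul_eq_mul]; ring
        rw [e1, e2]
        have := hp (t + a)
        rw [add_sub_cancel_right] at this
        exact max_le le_rfl this.le
    apply integral_mono (integrable_exp_neg _ h) (integrable_exp_neg _ (widen_good h a))
    intro t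
    exact Real.exp_le_exp.2 (neg_le_neg (hle t))

end Pool.Agent.Lib.MP_ff773e_gt
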