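import Mathlib
import Pool.Agent.Lib.MP_ff773e_gt.Widen
import Pool.Agent.Lib.MP_ff773e_gt.OneDim

/-!
# Gaussian facts: resampling one direction, the potential inequality, and balancing
-/

set_option autoImplicit false

namespace Pool.Agent.Lib.MP_ff773e_gt

open Set MeasureTheory ProbabilityTheory
open scoped RealInnerProductSpace

variable {E : Type*} [NormedAddCommGroup E] [InnerProductSpace ℝ E] [FiniteDimensional ℝ E]
  [MeasurableSpace E] [BorelSpace E]

/-- Replace the component of `x` along `e` by `t`. -/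
def resample (e : E) (p : E × ℝ) : E := p.1 - ⟪e, p.1⟫ • e + p.2 • e

omit [FiniteDimensional ℝ E] [MeasurableSpace E] [BorelSpace E] in
theorem continuous_resample (e : E) : Continuous (resample e) := by
  unfold resample
  fun_prop

/-- Resampling one direction preserves the standard Gaussian measure. -/
theorem map_resample (e : E) (he : ‖e‖ = 1) :
    ((stdGaussian E).prod (gaussianReal 0 1)).map (resample e) = stdGaussian E := by
  have hmeas : Measurable (resample e) := (continuous_resample e).measurable
  have : IsProbabilityMeasure (((stdGaussian E).prod (gaussianReal 0 1)).map (resample e)) :=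
    Measure.isProbabilityMeasure_map hmeas.aemeasurable
  apply Measure.ext_of_charFun
  ext z
  rw [charFun_apply, integral_map hmeas.aemeasurable (by
    apply Continuous.aestronglyMeasurable
    fun_prop)]
  have hsplit : ∀ p : E × ℝ, Complex.exp (⟪resample e p, z⟫ * Complex.I) =
      Complex.exp (⟪p.1, z - ⟪e, z⟫ • e⟫ * Complex.I) *
        Complex.exp (⟪e, z⟫ * p.2 * Complex.I) := by
    intro p
    rw [← Complex.exp_add]
    congr 1
    have h1 : ⟪resample e p, z⟫ = ⟪p.1, z - ⟪e, z⟫ • e⟫ + ⟪e, z⟫ * p.2 := by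
      unfold resample
      rw [inner_add_left, inner_sub_left, inner_smul_left, inner_smul_left, inner_sub_right,
        inner_smul_right, real_inner_comm e p.1]
      simp only [conj_trivial]
      ring
    rw [h1]
    push_cast
    ring
  simp_rw [hsplit]
  rw [integral_prod_mul (f := fun x : E => Complex.exp (⟪x, z - ⟪e, z⟫ • e⟫ * Complex.I))
    (g := fun t : ℝ => Complex.exp (⟪e, z⟫ * t * Complex.I))]
  rw [← charFun_apply, ← charFun_apply_real, charFun_stdGaussian, charFun_gaussianReal,
    charFun_stdGaussian, ← Complex.exp_add]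
  congr 1
  have h2 : ‖z - ⟪e, z⟫ • e‖ ^ 2 = ‖z‖ ^ 2 - ⟪e, z⟫ ^ 2 := by
    rw [norm_sub_sq_real, norm_smul, he, mul_one, inner_smul_right, real_inner_comm e z,
      Real.norm_eq_abs, sq_abs]
    ring
  have h2' : ((‖z - ⟪e, z⟫ • e‖ : ℝ) : ℂ) ^ 2 = (‖z‖ : ℂ) ^ 2 - (⟪e, z⟫ : ℂ) ^ 2 := by
    rw [← Complex.ofReal_pow, h2]
    push_cast
    rfl
  rw [h2']
  simp
  ring

/-- The potential does not decrease under widening by a short vector. -/
theorem potential_le {φ : E → ℝ} (h : Good φ) (u : E) (hu : ‖u‖ ≤ 1 / 1000) :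
    ∫ x, Real.exp (-φ x) ∂(stdGaussian E) ≤ ∫ x, Real.exp (-widen φ u x) ∂(stdGaussian E) := by
  by_cases hu0 : u = 0
  · subst hu0
    have : ∀ x, widen φ 0 x = φ x := by
      intro x
      obtain ⟨s, -, hs⟩ := exists_widen_eq h 0 x
      rw [hs]; simp
    simp only [this, le_refl]
  · have hnu : 0 < ‖u‖ := norm_pos_iff.2 hu0
    set a := ‖u‖ with ha
    set e : E := a⁻¹ • u with he
    have hne : ‖e‖ = 1 := by
      rw [he, norm_smul, norm_inv, ha, norm_norm, inv_mul_cancel₀ hnu.ne']
    have hue : u = a • e := by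
      rw [he, smul_smul, mul_inv_cancel₀ hnu.ne', one_smul]
    have hmeas : Measurable (resample e) := (continuous_resample e).measurable
    have key : ∀ ψ : E → ℝ, Good ψ → ∫ x, Real.exp (-ψ x) ∂(stdGaussian E) =
        ∫ x, ∫ t, Real.exp (-ψ ((x - ⟪e, x⟫ • e) + t • e)) ∂(gaussianReal 0 1) ∂(stdGaussian E) := by
      intro ψ hψ
      have hint := integrable_exp_neg (stdGaussian E) hψ
      conv_lhs => rw [← map_resample e hne]
      rw [integral_map hmeas.aemeasurable (by
        rw [map_resample e hne]; exact hint.aestronglyMeasurable)]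
      rw [integral_prod]
      · rfl
      · have : Integrable (fun x => Real.exp (-ψ x))
            (((stdGaussian E).prod (gaussianReal 0 1)).map (resample e)) := by
          rw [map_resample e hne]; exact hint
        exact this.comp_measurable hmeas
    have hintg : ∀ ψ : E → ℝ, Good ψ → Integrable (fun x : E =>
        ∫ t, Real.exp (-ψ ((x - ⟪e, x⟫ • e) + t • e)) ∂(gaussianReal 0 1)) (stdGaussian E) := by
      intro ψ hψ
      have hint := integrable_exp_neg (stdGaussian E) hψ
      have h1 : Integrable (fun p : E × ℝ => Real.exp (-ψ (resample e p)))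
          ((stdGaussian E).prod (gaussianReal 0 1)) := by
        have : Integrable (fun x => Real.exp (-ψ x))
            (((stdGaussian E).prod (gaussianReal 0 1)).map (resample e)) := by
          rw [map_resample e hne]; exact hint
        exact this.comp_measurable hmeas
      exact h1.integral_prod_left
    rw [key φ h, key _ (widen_good h u)]
    apply integral_mono (hintg φ h) (hintg _ (widen_good h u))
    intro x
    show ∫ t, Real.exp (-φ ((x - ⟪e, x⟫ • e) + t • e)) ∂(gaussianReal 0 1) ≤
      ∫ t, Real.exp (-widen φ u ((x - ⟪e, x⟫ • e) + t • e)) ∂(gaussianReal 0 1)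
    have h1 := oneDim (h.line (x - ⟪e, x⟫ • e) e hne) a hnu hu
    have h2 : ∀ t, widen φ u ((x - ⟪e, x⟫ • e) + t • e) =
        widen (fun r : ℝ => φ ((x - ⟪e, x⟫ • e) + r • e)) a t := by
      intro t
      conv_lhs => rw [hue]
      exact widen_line φ _ e a t
    simp only [h2]
    exact h1

/-- Balancing: signs exist for which the potential bound holds at the signed sum. -/
theorem exists_signs (m : ℕ) : ∀ (u : Fin m → E), (∀ i, ‖u i‖ ≤ 1 / 1000) → ∀ φ : E → ℝ, Good φ →
    (∀ x, φ (-x) = φ x) → ∃ ε : Fin m → ℝ, (∀ i, ε i = 1 ∨ ε i = -1) ∧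
      ∫ x, Real.exp (-φ x) ∂(stdGaussian E) ≤ Real.exp (-φ (∑ i, ε i • u i)) := by
  induction m with
  | zero =>
    intro u _ φ h heven
    refine ⟨fun _ => 1, fun i => i.elim0, ?_⟩
    have h0 : ∀ x, φ 0 ≤ φ x := by
      intro x
      have := h.conv.2 (mem_univ x) (mem_univ (-x)) (show (0:ℝ) ≤ 1 / 2 by norm_num)
        (show (0:ℝ) ≤ 1 / 2 by norm_num) (by norm_num)
      rw [heven x] at this
      have e : (1 / 2 : ℝ) • x + (1 / 2 : ℝ) • (-x) = 0 := by module
      rw [e, smul_eq_mul] at this
      linarith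
    rw [Finset.univ_eq_empty, Finset.sum_empty]
    calc ∫ x, Real.exp (-φ x) ∂(stdGaussian E) ≤ ∫ _x, Real.exp (-φ 0) ∂(stdGaussian E) := by
          apply integral_mono (integrable_exp_neg _ h) (integrable_const _)
          intro x
          exact Real.exp_le_exp.2 (neg_le_neg (h0 x))
      _ = Real.exp (-φ 0) := by simp
  | succ m ih =>
    intro u hu φ h heven
    obtain ⟨ε, hε, hle⟩ := ih (fun i => u i.succ) (fun i => hu _) (widen φ (u 0))
      (widen_good h (u 0)) (widen_even heven (u 0))
    set z := ∑ i, ε i • u (Fin.succ i) with hz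
    have hpot := (potential_le h (u 0) (hu 0)).trans hle
    have hmin := min_le_widen h (u 0) z
    rcases le_total (φ (z + u 0)) (φ (z - u 0)) with h1 | h1
    · rw [min_eq_left h1] at hmin
      refine ⟨Fin.cons 1 ε, ?_, ?_⟩
      · intro i
        refine Fin.cases ?_ ?_ i
        · left; rfl
        · intro j; exact hε j
      · rw [Fin.sum_univ_succ]
        simp only [Fin.cons_zero, Fin.cons_succ, one_smul]
        rw [← hz, add_comm]
        exact hpot.trans (Real.exp_le_exp.2 (neg_le_neg hmin))
    · rw [min_eq_right h1] at hmin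
      refine ⟨Fin.cons (-1) ε, ?_, ?_⟩
      · intro i
        refine Fin.cases ?_ ?_ i
        · right; rfl
        · intro j; exact hε j
      · rw [Fin.sum_univ_succ]
        simp only [Fin.cons_zero, Fin.cons_succ, neg_smul, one_smul]
        rw [← hz, add_comm, ← sub_eq_add_neg]
        exact hpot.trans (Real.exp_le_exp.2 (neg_le_neg hmin))

/-- The Gaussian measure of a symmetric slab. -/
theorem slab_lt (e : E) (he : ‖e‖ = 1) (b : ℝ) (hb : 0 < b) :
    (stdGaussian E).real {x | |⟪e, x⟫| < b} < b := by
  have hmeas : Measurable (resample e) := (continuous_resample e).measurable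
  have hms : MeasurableSet {x : E | |⟪e, x⟫| < b} :=
    (isOpen_lt (by fun_prop) continuous_const).measurableSet
  have h1 : (stdGaussian E).real {x | |⟪e, x⟫| < b} = (gaussianReal 0 1).real (Ioo (-b) b) := by
    rw [Measure.real, Measure.real]
    congr 1
    conv_lhs => rw [← map_resample e he]
    rw [Measure.map_apply hmeas hms]
    have hpre : resample e ⁻¹' {x : E | |⟪e, x⟫| < b} = univ ×ˢ Ioo (-b) b := by
      ext p
      have : ⟪e, resample e p⟫ = p.2 := by
        unfold resample
        rw [inner_add_right, inner_sub_right, inner_smul_right, inner_smul_right,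
          real_inner_self_eq_norm_sq, he]
        ring
      simp [this, abs_lt]
    rw [hpre, Measure.prod_prod, measure_univ, one_mul]
  rw [h1, gauss_real_eq]
  have h2 : ∫ x in Ioo (-b) b, gaussianPDFReal 0 1 x ≤
      ∫ x in Ioo (-b) b, (Real.sqrt (2 * Real.pi))⁻¹ := by
    apply setIntegral_mono_on
    · exact (integrable_gaussianPDFReal 0 1).integrableOn
    · exact integrableOn_const (by simp)
    · exact measurableSet_Ioo
    · intro x _
      rw [pdf_eq]
      have : Real.exp (-x ^ 2 / 2) ≤ 1 := Real.exp_le_one_iff.2 (by nlinarith [sq_nonneg x])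
      exact mul_le_of_le_one_right (by positivity) this
  have h3 : ∫ x in Ioo (-b) b, (Real.sqrt (2 * Real.pi))⁻¹ = 2 * b * (Real.sqrt (2 * Real.pi))⁻¹ := by
    rw [setIntegral_const, measureReal_def, Real.volume_Ioo, ENNReal.toReal_ofReal (by linarith)]
    rw [smul_eq_mul]; ring
  rw [h3] at h2
  refine lt_of_le_of_lt h2 ?_
  have h4 : 2 < Real.sqrt (2 * Real.pi) := by
    apply Real.lt_sqrt_of_sq_lt
    nlinarith [Real.pi_gt_three]
  have h5 : 0 < Real.sqrt (2 * Real.pi) := by linarith
  rw [mul_inv_lt_iff₀ h5]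
  nlinarith

/-- The rotation trick: from a set of Gaussian measure `p` one gets a centre `y` such that the set
of `x` with both `y ± x` (suitably scaled) in the set has measure at least `p²`. -/
theorem exists_center (K : Set E) (hK : MeasurableSet K) :
    ∃ y : E, (stdGaussian E).real K ^ 2 ≤
      (stdGaussian E).real {x | y + (Real.sqrt 2 / 2) • x ∈ K ∧ y - (Real.sqrt 2 / 2) • x ∈ K} := by
  set γ := stdGaussian E with hγ
  have hrot := IsGaussian.map_rotation_eq_self_of_forall_strongDual_eq_zero (μ := γ)
    (fun L => integral_strongDual_stdGaussian L) (Real.pi / 4)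
  have hmrot : Measurable (ContinuousLinearMap.rotation (E := E) (Real.pi / 4)) :=
    (ContinuousLinearMap.continuous _).measurable
  have hKK : MeasurableSet (K ×ˢ K) := hK.prod hK
  have h1 : (γ.prod γ) (K ×ˢ K) = γ K * γ K := Measure.prod_prod K K
  rw [← hrot, Measure.map_apply hmrot hKK, Measure.prod_apply_symm (hmrot hKK)] at h1
  obtain ⟨y, hy⟩ := exists_lintegral_le (μ := γ)
    (f := fun y => γ ((fun x => (x, y)) ⁻¹'
      (ContinuousLinearMap.rotation (Real.pi / 4) ⁻¹' (K ×ˢ K)))) (by
      rw [h1]; exact ENNReal.mul_ne_top (measure_ne_top _ _) (measure_ne_top _ _))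
  rw [h1] at hy
  refine ⟨(Real.sqrt 2 / 2) • y, ?_⟩
  have hset : ((fun x => (x, y)) ⁻¹' (ContinuousLinearMap.rotation (Real.pi / 4) ⁻¹' (K ×ˢ K))) =
      {x | (Real.sqrt 2 / 2) • y + (Real.sqrt 2 / 2) • x ∈ K ∧
        (Real.sqrt 2 / 2) • y - (Real.sqrt 2 / 2) • x ∈ K} := by
    ext x
    simp only [mem_preimage, ContinuousLinearMap.rotation_apply, Real.cos_pi_div_four,
      Real.sin_pi_div_four, mem_prod, Set.mem_ofPred_eq]
    rw [add_comm ((Real.sqrt 2 / 2) • x), neg_smul, add_comm (-((Real.sqrt 2 / 2) • x)),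
      ← sub_eq_add_neg]
  rw [hset] at hy
  have h2 := ENNReal.toReal_mono (measure_ne_top _ _) hy
  rw [ENNReal.toReal_mul] at h2
  rw [pow_two]
  exact h2

end Pool.Agent.Lib.MP_ff773e_gt
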