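import Mathlib
import Pool.Agent.Lib.MP_ff773e_gt.Gauss
import Pool.Agent.Lib.MP_ff773e_gt.Defs

/-!
# From the potential argument to convex bodies
-/

set_option autoImplicit false

namespace Pool.Agent.Lib.MP_ff773e_gt

open Set MeasureTheory ProbabilityTheory Filter Topology
open scoped RealInnerProductSpace Pointwise

section

variable {E : Type*} [NormedAddCommGroup E] [InnerProductSpace ℝ E] [FiniteDimensional ℝ E]

/-- The distance to a nonempty closed convex set is nonnegative, convex and 1-Lipschitz. -/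
theorem good_infDist {S : Set E} (hS : Convex ℝ S) (hc : IsClosed S) (hne : S.Nonempty) :
    Good (fun x => Metric.infDist x S) where
  nonneg x := Metric.infDist_nonneg
  conv := by
    refine ⟨convex_univ, ?_⟩
    intro x _ y _ a b ha hb hab
    obtain ⟨p, hp, hpx⟩ := hc.exists_infDist_eq_dist hne x
    obtain ⟨q, hq, hqy⟩ := hc.exists_infDist_eq_dist hne y
    have hmem : a • p + b • q ∈ S := hS hp hq ha hb hab
    show Metric.infDist (a • x + b • y) S ≤ a • Metric.infDist x S + b • Metric.infDist y S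
    rw [hpx, hqy, smul_eq_mul, smul_eq_mul]
    refine (Metric.infDist_le_dist_of_mem hmem).trans ?_
    rw [dist_eq_norm, dist_eq_norm, dist_eq_norm]
    have e : a • x + b • y - (a • p + b • q) = a • (x - p) + b • (y - q) := by module
    rw [e]
    refine (norm_add_le _ _).trans ?_
    rw [norm_smul, norm_smul, Real.norm_of_nonneg ha, Real.norm_of_nonneg hb]
  lip x y := by
    show Metric.infDist x S ≤ Metric.infDist y S + ‖x - y‖
    rw [← dist_eq_norm]
    exact Metric.infDist_le_infDist_add_dist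

omit [FiniteDimensional ℝ E] in
theorem infDist_neg_of_symm {S : Set E} (hsym : ∀ x ∈ S, -x ∈ S) (x : E) :
    Metric.infDist (-x) S = Metric.infDist x S := by
  have h1 : -S = S := by
    ext y
    rw [Set.mem_neg]
    constructor
    · intro h
      have := hsym _ h
      rwa [neg_neg] at this
    · intro h
      exact hsym _ h
  have h2 : Metric.infDist (-x) (-S) = Metric.infDist x S := by
    have h3 : (-S : Set E) = (LinearIsometryEquiv.neg ℝ : E ≃ₗᵢ[ℝ] E) '' S := by
      ext y
      simp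
    rw [h3]
    have h4 : (-x : E) = (LinearIsometryEquiv.neg ℝ : E ≃ₗᵢ[ℝ] E) x := by simp
    rw [h4]
    exact Metric.infDist_image (LinearIsometryEquiv.isometry _)
  rw [h1] at h2
  exact h2

variable [MeasurableSpace E] [BorelSpace E]

/-- A closed convex symmetric set of Gaussian measure at least `q` contains the ball of radius
`q`. -/
theorem closedBall_subset {S : Set E} (hS : Convex ℝ S) (hc : IsClosed S)
    (hsym : ∀ x ∈ S, -x ∈ S) {q : ℝ} (hq : 0 < q) (hle : q ≤ (stdGaussian E).real S) :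
    Metric.closedBall (0 : E) q ⊆ S := by
  intro x hx
  by_contra hxS
  have hne : S.Nonempty := by
    rw [Set.nonempty_iff_ne_empty]
    rintro rfl
    simp at hle
    linarith
  have h0S : (0 : E) ∈ S := by
    obtain ⟨a, ha⟩ := hne
    have := hS ha (hsym a ha) (show (0:ℝ) ≤ 1 / 2 by norm_num) (show (0:ℝ) ≤ 1 / 2 by norm_num)
      (by norm_num)
    have e : (1 / 2 : ℝ) • a + (1 / 2 : ℝ) • (-a) = 0 := by module
    rwa [e] at this
  obtain ⟨f, s, hf, hs⟩ := geometric_hahn_banach_closed_point hS hc hxS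
  have hs0 : 0 < s := by
    have := hf 0 h0S
    simpa using this
  set v : E := (InnerProductSpace.toDual ℝ E).symm f with hv
  have hfv : ∀ y, f y = ⟪v, y⟫ := by
    intro y
    rw [hv, InnerProductSpace.toDual_symm_apply]
  have hxn : ‖x‖ ≤ q := by simpa using hx
  have hv0 : 0 < ‖v‖ := by
    rw [norm_pos_iff]
    intro h
    rw [hfv, h, inner_zero_left] at hs
    linarith
  set e : E := ‖v‖⁻¹ • v with he
  have hne1 : ‖e‖ = 1 := by
    rw [he, norm_smul, norm_inv, norm_norm, inv_mul_cancel₀ hv0.ne']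
  have hb : 0 < s / ‖v‖ := div_pos hs0 hv0
  have hsub : S ⊆ {y | |⟪e, y⟫| < s / ‖v‖} := by
    intro y hy
    have h1 := hf y hy
    have h2 := hf (-y) (hsym y hy)
    rw [hfv] at h1 h2
    rw [inner_neg_right] at h2
    show |⟪e, y⟫| < s / ‖v‖
    rw [he, inner_smul_left, conj_trivial, lt_div_iff₀ hv0, abs_mul, abs_inv, abs_norm]
    rw [mul_comm, ← mul_assoc, mul_inv_cancel₀ hv0.ne', one_mul, abs_lt]
    constructor <;> linarith
  have h3 := slab_lt e hne1 (s / ‖v‖) hb
  have h4 : (stdGaussian E).real S ≤ (stdGaussian E).real {y | |⟪e, y⟫| < s / ‖v‖} :=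
    measureReal_mono hsub
  have h5 : s < ‖v‖ * q := by
    rw [hfv] at hs
    refine hs.trans_le ((real_inner_le_norm v x).trans ?_)
    exact mul_le_mul_of_nonneg_left hxn hv0.le
  have h6 : s / ‖v‖ < q := by
    rw [div_lt_iff₀ hv0]
    linarith
  linarith

/-- The potential argument for a symmetric closed convex set. -/
theorem signs_infDist {S : Set E} (hS : Convex ℝ S) (hc : IsClosed S)
    (hsym : ∀ x ∈ S, -x ∈ S) {q : ℝ} (hq : 0 < q) (hle : q ≤ (stdGaussian E).real S)
    {m : ℕ} (u : Fin m → E) (hu : ∀ i, ‖u i‖ ≤ 1 / 1000) :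
    ∃ ε : Fin m → ℝ, (∀ i, ε i = 1 ∨ ε i = -1) ∧
      Metric.infDist (∑ i, ε i • u i) S ≤ 1 / q := by
  have hne : S.Nonempty := by
    rw [Set.nonempty_iff_ne_empty]
    rintro rfl
    simp at hle
    linarith
  have hgood := good_infDist hS hc hne
  obtain ⟨ε, hε, h⟩ := exists_signs m u hu _ hgood (infDist_neg_of_symm hsym)
  refine ⟨ε, hε, ?_⟩
  have h1 : (stdGaussian E).real S ≤ ∫ x, Real.exp (-Metric.infDist x S) ∂(stdGaussian E) := by
    have hint := integrable_exp_neg (stdGaussian E) hgood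
    have h2 : (stdGaussian E).real S = ∫ x, S.indicator (fun _ => (1 : ℝ)) x ∂(stdGaussian E) := by
      rw [integral_indicator hc.measurableSet]
      simp
    rw [h2]
    apply integral_mono
    · exact (integrable_const (1 : ℝ)).indicator hc.measurableSet
    · exact hint
    · intro x
      by_cases hx : x ∈ S
      · simp only [Set.indicator_of_mem hx]
        rw [Metric.infDist_zero_of_mem hx]
        simp
      · simp only [Set.indicator_of_notMem hx]
        exact (Real.exp_pos _).le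
  set d := Metric.infDist (∑ i, ε i • u i) S with hd
  have h3 : q ≤ Real.exp (-d) := hle.trans (h1.trans h)
  have h4 : d + 1 ≤ Real.exp d := Real.add_one_le_exp d
  have h5 : Real.exp (-d) * Real.exp d = 1 := by
    rw [← Real.exp_add]; simp
  rw [le_div_iff₀ hq]
  have hd0 : 0 ≤ d := Metric.infDist_nonneg
  nlinarith [Real.exp_pos d, Real.exp_pos (-d)]

/-- Balancing inside a multiple of a symmetric closed convex set. -/
theorem signs_symm {S : Set E} (hS : Convex ℝ S) (hc : IsClosed S)
    (hsym : ∀ x ∈ S, -x ∈ S) {q : ℝ} (hq : 0 < q) (hle : q ≤ (stdGaussian E).real S)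
    {m : ℕ} (u : Fin m → E) (hu : ∀ i, ‖u i‖ ≤ 1) :
    ∃ ε : Fin m → ℝ, (∀ i, ε i = 1 ∨ ε i = -1) ∧
      ∃ s ∈ S, ∑ i, ε i • u i = (1000 * (1 + 1 / q ^ 2)) • s := by
  have hne : S.Nonempty := by
    rw [Set.nonempty_iff_ne_empty]
    rintro rfl
    simp at hle
    linarith
  obtain ⟨ε, hε, h⟩ := signs_infDist hS hc hsym hq hle (fun i => (1 / 1000 : ℝ) • u i) (by
    intro i
    rw [norm_smul, Real.norm_of_nonneg (by norm_num)]
    have := hu i
    linarith)
  refine ⟨ε, hε, ?_⟩
  have hz : ∑ i, ε i • (1 / 1000 : ℝ) • u i = (1 / 1000 : ℝ) • ∑ i, ε i • u i := by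
    rw [Finset.smul_sum]
    apply Finset.sum_congr rfl
    intro i _
    rw [smul_comm]
  rw [hz] at h
  set w := ∑ i, ε i • u i with hw
  obtain ⟨a, ha, hda⟩ := hc.exists_infDist_eq_dist hne ((1 / 1000 : ℝ) • w)
  rw [hda, dist_eq_norm] at h
  set b : E := q ^ 2 • ((1 / 1000 : ℝ) • w - a) with hb
  have hbS : b ∈ S := by
    apply closedBall_subset hS hc hsym hq hle
    rw [mem_closedBall_zero_iff, hb, norm_smul, Real.norm_of_nonneg (by positivity)]
    calc q ^ 2 * ‖(1 / 1000 : ℝ) • w - a‖ ≤ q ^ 2 * (1 / q) := by gcongr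
      _ = q := by field_simp
  have hpos : 0 < 1 + 1 / q ^ 2 := by positivity
  refine ⟨(1 / (1 + 1 / q ^ 2)) • a + ((1 / q ^ 2) / (1 + 1 / q ^ 2)) • b, ?_, ?_⟩
  · apply hS ha hbS (by positivity) (by positivity)
    field_simp
  · rw [hb]
    have e1 : (1000 * (1 + 1 / q ^ 2)) • ((1 / (1 + 1 / q ^ 2)) • a +
        ((1 / q ^ 2) / (1 + 1 / q ^ 2)) • q ^ 2 • ((1 / 1000 : ℝ) • w - a)) =
        (1000 * (1 + 1 / q ^ 2) * (1 / (1 + 1 / q ^ 2))) • a +
        (1000 * (1 + 1 / q ^ 2) * ((1 / q ^ 2) / (1 + 1 / q ^ 2)) * q ^ 2) •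
          ((1 / 1000 : ℝ) • w - a) := by
      module
    rw [e1]
    have e2 : 1000 * (1 + 1 / q ^ 2) * (1 / (1 + 1 / q ^ 2)) = 1000 := by
      field_simp
    have e3 : 1000 * (1 + 1 / q ^ 2) * ((1 / q ^ 2) / (1 + 1 / q ^ 2)) * q ^ 2 = 1000 := by
      field_simp
    rw [e2, e3, smul_sub, smul_smul]
    norm_num

/-- The main balancing theorem for closed convex sets: after a suitable translation (depending on
the set only) the origin is interior and all short vectors can be balanced. -/
theorem main_balancing {K : Set E} (hK : Convex ℝ K) (hc : IsClosed K)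
    (hp : 0 < (stdGaussian E).real K) :
    ∃ x₀ : E, 0 ∈ interior ((-x₀) +ᵥ K) ∧ ∀ (m : ℕ) (u : Fin m → E), (∀ i, ‖u i‖ ≤ 1) →
      ∃ ε : Fin m → ℝ, (∀ i, ε i = 1 ∨ ε i = -1) ∧
        ∑ i, ε i • u i ∈
          (1000 * Real.sqrt 2 * (1 + 1 / ((stdGaussian E).real K) ^ 4)) • ((-x₀) +ᵥ K) := by
  set p := (stdGaussian E).real K with hpdef
  obtain ⟨x₀, hx₀⟩ := exists_center K hc.measurableSet
  set c : ℝ := Real.sqrt 2 / 2 with hcdef
  have hsq2 : 0 < Real.sqrt 2 := by positivity
  have hcpos : 0 < c := by positivity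
  set S : Set E := {x | x₀ + c • x ∈ K ∧ x₀ - c • x ∈ K} with hSdef
  have hSc : IsClosed S := by
    apply IsClosed.inter
    · exact hc.preimage (by fun_prop : Continuous fun x : E => x₀ + c • x)
    · exact hc.preimage (by fun_prop : Continuous fun x : E => x₀ - c • x)
  have hSconv : Convex ℝ S := by
    intro x hx y hy a b ha hb hab
    have hb' : b = 1 - a := by linarith
    constructor
    · have := hK hx.1 hy.1 ha hb hab
      have e : a • (x₀ + c • x) + b • (x₀ + c • y) = x₀ + c • (a • x + b • y) := by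
        subst hb'
        module
      rwa [e] at this
    · have := hK hx.2 hy.2 ha hb hab
      have e : a • (x₀ - c • x) + b • (x₀ - c • y) = x₀ - c • (a • x + b • y) := by
        subst hb'
        module
      rwa [e] at this
  have hSsym : ∀ x ∈ S, -x ∈ S := by
    intro x hx
    refine ⟨?_, ?_⟩
    · rw [smul_neg, ← sub_eq_add_neg]; exact hx.2
    · rw [smul_neg, sub_neg_eq_add]; exact hx.1
  have hq : 0 < p ^ 2 := by positivity
  have hSK : ∀ x ∈ S, c • x ∈ (-x₀) +ᵥ K := by
    intro x hx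
    rw [Set.mem_vadd_set_iff_neg_vadd_mem, neg_neg, vadd_eq_add]
    exact hx.1
  refine ⟨x₀, ?_, ?_⟩
  · rw [mem_interior_iff_mem_nhds, Metric.nhds_basis_closedBall.mem_iff]
    refine ⟨c * p ^ 2, by positivity, ?_⟩
    intro y hy
    have h1 : c⁻¹ • y ∈ S := by
      apply closedBall_subset hSconv hSc hSsym hq hx₀
      rw [mem_closedBall_zero_iff] at hy ⊢
      rw [norm_smul, norm_inv, Real.norm_of_nonneg hcpos.le, inv_mul_le_iff₀ hcpos]
      exact hy
    have h2 := hSK _ h1
    rwa [smul_smul, mul_inv_cancel₀ hcpos.ne', one_smul] at h2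
  · intro m u hu
    obtain ⟨ε, hε, s, hs, hsum⟩ := signs_symm hSconv hSc hSsym hq hx₀ u hu
    refine ⟨ε, hε, ?_⟩
    rw [hsum, Set.mem_smul_set]
    refine ⟨c • s, hSK s hs, ?_⟩
    rw [smul_smul]
    congr 1
    have h2 : Real.sqrt 2 * Real.sqrt 2 = 2 := Real.mul_self_sqrt (by norm_num)
    rw [hcdef]
    calc 1000 * Real.sqrt 2 * (1 + 1 / p ^ 4) * (Real.sqrt 2 / 2)
        = 1000 * (Real.sqrt 2 * Real.sqrt 2 / 2) * (1 + 1 / p ^ 4) := by ring
      _ = 1000 * (1 + 1 / (p ^ 2) ^ 2) := by rw [h2]; ring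

end

section Rn

variable {n : ℕ}

instance isOpenPosMeasure_gaussianReal : (gaussianReal 0 1).IsOpenPosMeasure :=
  (gaussianReal_absolutelyContinuous' 0 one_ne_zero).isOpenPosMeasure

instance isOpenPosMeasure_stdGaussian : (stdGaussian (Rn n)).IsOpenPosMeasure := by
  rw [← map_pi_eq_stdGaussian]
  exact Continuous.isOpenPosMeasure_map (by fun_prop) (WithLp.toLp_surjective 2)

theorem gam_pos_of_interior {V : Set (Rn n)} (h : (interior V).Nonempty) : 0 < gam V := by
  unfold gam
  rw [Measure.real, ENNReal.toReal_pos_iff]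
  refine ⟨?_, measure_lt_top _ _⟩
  exact (isOpen_interior.measure_pos _ h).trans_le (measure_mono interior_subset)

theorem gam_lt_one {V : Set (Rn n)} (hn : 1 ≤ n) (h : IsCompact V) : gam V < 1 := by
  have : NeZero n := ⟨by omega⟩
  have : Nontrivial (Rn n) := by
    infer_instance
  have : NoncompactSpace (Rn n) := by
    exact NormedSpace.noncompactSpace ℝ (Rn n)
  have hne : (Vᶜ).Nonempty := by
    rw [Set.nonempty_compl]
    exact h.ne_univ
  have h1 : 0 < gam (Vᶜ) := by
    apply gam_pos_of_interior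
    rw [h.isClosed.isOpen_compl.interior_eq]
    exact hne
  have h2 : gam (Vᶜ) = 1 - gam V := by
    unfold gam
    exact probReal_compl_eq_one_sub h.isClosed.measurableSet
  linarith

end Rn

end Pool.Agent.Lib.MP_ff773e_gt
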