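import Mathlib
import Pool.Agent.Lib.MP_ff773e_gt.Body

/-!
# Widening a convex body by a segment, and its Gaussian barycentre
-/

set_option autoImplicit false

namespace Pool.Agent.Lib.MP_ff773e_gt

open Set MeasureTheory ProbabilityTheory Filter Topology
open scoped RealInnerProductSpace Pointwise

theorem pdf_le_two_mul {J : Set ℝ} {t : ℝ} (hJ : Icc (t - 1) (t + 1) ⊆ J) :
    gaussianPDF 0 1 t ≤ 2 * gaussianReal 0 1 J := by
  -- a unit interval next to `t` on which the density is at least half of the density at `t`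
  obtain ⟨l, hl1, hl2, hl3⟩ : ∃ l : ℝ, t - 1 ≤ l ∧ l + 1 ≤ t + 1 ∧
      ∀ x ∈ Icc l (l + 1), x ^ 2 ≤ t ^ 2 + 1 := by
    rcases le_total 0 t with h | h
    · refine ⟨t - 1, le_rfl, by linarith, ?_⟩
      intro x hx
      have h1 := hx.1
      have h2 := hx.2
      rcases le_total 0 x with hx0 | hx0
      · nlinarith
      · nlinarith
    · refine ⟨t, by linarith, le_rfl, ?_⟩
      intro x hx
      have h1 := hx.1
      have h2 := hx.2
      rcases le_total 0 x with hx0 | hx0
      · nlinarith
      · nlinarith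
  have hsub : Icc l (l + 1) ⊆ J := (Icc_subset_Icc hl1 hl2).trans hJ
  have hpt : ∀ x ∈ Icc l (l + 1), ENNReal.ofReal (gaussianPDFReal 0 1 t / 2) ≤
      gaussianPDF 0 1 x := by
    intro x hx
    unfold gaussianPDF
    apply ENNReal.ofReal_le_ofReal
    rw [pdf_eq, pdf_eq, mul_div_assoc]
    apply mul_le_mul_of_nonneg_left _ (by positivity)
    have h1 := hl3 x hx
    have h2 : Real.exp (-t ^ 2 / 2) ≤ Real.exp (1 / 2) * Real.exp (-x ^ 2 / 2) := by
      rw [← Real.exp_add]
      apply Real.exp_le_exp.2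
      linarith
    have h3 : Real.exp (1 / 2) ≤ 2 := by
      have h4 : Real.exp (1 / 2) * Real.exp (1 / 2) = Real.exp 1 := by
        rw [← Real.exp_add]; norm_num
      have h5 := Real.exp_one_lt_d9
      nlinarith [Real.exp_pos (1 / 2)]
    nlinarith [Real.exp_pos (-x ^ 2 / 2)]
  have h1 : ENNReal.ofReal (gaussianPDFReal 0 1 t / 2) ≤ gaussianReal 0 1 J := by
    calc ENNReal.ofReal (gaussianPDFReal 0 1 t / 2)
        = ∫⁻ _ in Icc l (l + 1), ENNReal.ofReal (gaussianPDFReal 0 1 t / 2) := by
          rw [setLIntegral_const, Real.volume_Icc]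
          simp
      _ ≤ ∫⁻ x in Icc l (l + 1), gaussianPDF 0 1 x := setLIntegral_mono' measurableSet_Icc hpt
      _ = gaussianReal 0 1 (Icc l (l + 1)) := (gaussianReal_apply 0 one_ne_zero _).symm
      _ ≤ gaussianReal 0 1 J := measure_mono hsub
  calc gaussianPDF 0 1 t = 2 * ENNReal.ofReal (gaussianPDFReal 0 1 t / 2) := by
        unfold gaussianPDF
        rw [show (2 : ENNReal) = ENNReal.ofReal 2 by simp, ← ENNReal.ofReal_mul (by norm_num)]
        congr 1
        ring
    _ ≤ 2 * gaussianReal 0 1 J := by gcongr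

/-- One-dimensional widening: a set inside a short interval has small measure compared with any
set containing its unit neighbourhood. -/
theorem oneDim_widen {I J : Set ℝ} (hI : MeasurableSet I) {a w : ℝ}
    (hIa : I ⊆ Icc (a - w) (a + w)) (hJ : ∀ t ∈ I, Icc (t - 1) (t + 1) ⊆ J) :
    gaussianReal 0 1 I ≤ ENNReal.ofReal (4 * w) * gaussianReal 0 1 J := by
  calc gaussianReal 0 1 I = ∫⁻ x in I, gaussianPDF 0 1 x := gaussianReal_apply 0 one_ne_zero I
    _ ≤ ∫⁻ _ in I, 2 * gaussianReal 0 1 J :=
        setLIntegral_mono' hI (fun t ht => pdf_le_two_mul (hJ t ht))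
    _ = 2 * gaussianReal 0 1 J * volume I := setLIntegral_const _ _
    _ ≤ 2 * gaussianReal 0 1 J * ENNReal.ofReal (2 * w) := by
        gcongr
        refine (measure_mono hIa).trans ?_
        rw [Real.volume_Icc]
        apply ENNReal.ofReal_le_ofReal
        linarith
    _ = ENNReal.ofReal (4 * w) * gaussianReal 0 1 J := by
        have h : ENNReal.ofReal (4 * w) = 2 * ENNReal.ofReal (2 * w) := by
          rw [show (2 : ENNReal) = ENNReal.ofReal 2 by simp, ← ENNReal.ofReal_mul (by norm_num)]
          congr 1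
          ring
        rw [h]
        ring

section

variable {E : Type*} [NormedAddCommGroup E] [InnerProductSpace ℝ E] [FiniteDimensional ℝ E]

/-- The set `K` widened by the segment `[-v, v]`. -/
def thick (K : Set E) (v : E) : Set E := {x | ∃ s ∈ Icc (-1 : ℝ) 1, x + s • v ∈ K}

omit [FiniteDimensional ℝ E] in
theorem subset_thick (K : Set E) (v : E) : K ⊆ thick K v :=
  fun x hx => ⟨0, by norm_num, by simpa using hx⟩

omit [FiniteDimensional ℝ E] in
theorem isCompact_thick {K : Set E} (hK : IsCompact K) (v : E) : IsCompact (thick K v) := by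
  have h : thick K v = (fun p : E × ℝ => p.1 - p.2 • v) '' (K ×ˢ Icc (-1 : ℝ) 1) := by
    ext x
    constructor
    · rintro ⟨s, hs, hx⟩
      exact ⟨(x + s • v, s), ⟨hx, hs⟩, by simp⟩
    · rintro ⟨⟨y, s⟩, ⟨hy, hs⟩, rfl⟩
      exact ⟨s, hs, by simpa using hy⟩
  rw [h]
  exact (hK.prod isCompact_Icc).image (by fun_prop)

omit [FiniteDimensional ℝ E] in
theorem convex_thick {K : Set E} (hK : Convex ℝ K) (v : E) : Convex ℝ (thick K v) := by
  rintro x ⟨s, hs, hx⟩ y ⟨t, ht, hy⟩ a b ha hb hab
  refine ⟨a * s + b * t, ?_, ?_⟩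
  · constructor
    · nlinarith [hs.1, ht.1, mul_nonneg ha (show 0 ≤ s + 1 by linarith [hs.1]),
        mul_nonneg hb (show 0 ≤ t + 1 by linarith [ht.1])]
    · nlinarith [hs.2, ht.2, mul_nonneg ha (show 0 ≤ 1 - s by linarith [hs.2]),
        mul_nonneg hb (show 0 ≤ 1 - t by linarith [ht.2])]
  · have e : a • x + b • y + (a * s + b * t) • v = a • (x + s • v) + b • (y + t • v) := by
      module
    rw [e]
    exact hK hx hy ha hb hab

/-- Separation of a point of a ball from a convex set, with a unit normal. -/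
theorem exists_unit_normal {K : Set E} (hK : Convex ℝ K) (hc : IsClosed K) (hne : K.Nonempty)
    {x₀ : E} {h : ℝ} (hball : ¬ Metric.closedBall x₀ h ⊆ K) :
    ∃ v : E, ‖v‖ = 1 ∧ ∀ x ∈ K, ⟪v, x⟫ - ⟪v, x₀⟫ ≤ h := by
  rw [Set.not_subset] at hball
  obtain ⟨y, hy, hyK⟩ := hball
  obtain ⟨f, s, hf, hs⟩ := geometric_hahn_banach_closed_point hK hc hyK
  set v : E := (InnerProductSpace.toDual ℝ E).symm f with hv
  have hfv : ∀ y, f y = ⟪v, y⟫ := by
    intro y
    rw [hv, InnerProductSpace.toDual_symm_apply]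
  have hv0 : 0 < ‖v‖ := by
    rw [norm_pos_iff]
    intro h0
    obtain ⟨z, hz⟩ := hne
    have h1 := hf z hz
    rw [hfv, h0, inner_zero_left] at h1
    rw [hfv, h0, inner_zero_left] at hs
    linarith
  refine ⟨‖v‖⁻¹ • v, ?_, ?_⟩
  · rw [norm_smul, norm_inv, norm_norm, inv_mul_cancel₀ hv0.ne']
  · intro x hx
    rw [inner_smul_left, inner_smul_left, conj_trivial, ← mul_sub, inv_mul_le_iff₀ hv0]
    have h1 := hf x hx
    rw [hfv] at h1 hs
    have h2 : ⟪v, y⟫ - ⟪v, x₀⟫ ≤ ‖v‖ * h := by
      rw [← inner_sub_right]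
      refine (real_inner_le_norm _ _).trans ?_
      rw [Metric.mem_closedBall, dist_eq_norm] at hy
      exact mul_le_mul_of_nonneg_left hy hv0.le
    linarith

variable [MeasurableSpace E] [BorelSpace E]

/-- Widening a part of a body that lies in a thin slab increases the Gaussian measure. -/
theorem slab_widen {K : Set E} (hK : IsCompact K) {v : E} (hv : ‖v‖ = 1) (a w : ℝ) :
    stdGaussian E (K ∩ {x | |⟪v, x⟫ - a| ≤ w}) ≤
      ENNReal.ofReal (4 * w) * stdGaussian E (thick K v) := by
  have hmeas : Measurable (resample v) := (continuous_resample v).measurable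
  have hin : ∀ p : E × ℝ, ⟪v, resample v p⟫ = p.2 := by
    intro p
    unfold resample
    rw [inner_add_right, inner_sub_right, inner_smul_right, inner_smul_right,
      real_inner_self_eq_norm_sq, hv]
    ring
  have hA : MeasurableSet (K ∩ {x | |⟪v, x⟫ - a| ≤ w}) := by
    apply hK.measurableSet.inter
    exact (isClosed_le (by fun_prop) continuous_const).measurableSet
  have hB : MeasurableSet (thick K v) := (isCompact_thick hK v).measurableSet
  have h1 : stdGaussian E (K ∩ {x | |⟪v, x⟫ - a| ≤ w}) =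
      ∫⁻ x, gaussianReal 0 1 (Prod.mk x ⁻¹' (resample v ⁻¹' (K ∩ {x | |⟪v, x⟫ - a| ≤ w})))
        ∂(stdGaussian E) := by
    conv_lhs => rw [← map_resample v hv]
    rw [Measure.map_apply hmeas hA, Measure.prod_apply (hmeas hA)]
  have h2 : stdGaussian E (thick K v) =
      ∫⁻ x, gaussianReal 0 1 (Prod.mk x ⁻¹' (resample v ⁻¹' (thick K v)))
        ∂(stdGaussian E) := by
    conv_lhs => rw [← map_resample v hv]
    rw [Measure.map_apply hmeas hB, Measure.prod_apply (hmeas hB)]
  rw [h1, h2, ← lintegral_const_mul]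
  · apply lintegral_mono
    intro x
    apply oneDim_widen
    · exact measurable_prodMk_left (hmeas hA)
    · intro t ht
      have h3 : |⟪v, resample v (x, t)⟫ - a| ≤ w := ht.2
      rw [hin, abs_le] at h3
      exact ⟨by linarith [h3.1], by linarith [h3.2]⟩
    · intro t ht s hs
      refine ⟨t - s, ⟨by linarith [hs.2], by linarith [hs.1]⟩, ?_⟩
      have h3 : resample v (x, t) ∈ K := ht.1
      have e : resample v (x, s) + (t - s) • v = resample v (x, t) := by
        unfold resample
        simp only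
        module
      rw [e]
      exact h3
  · exact measurable_measure_prodMk_left (hmeas hB)

/-- The Gaussian barycentre of a body: if the body lies in a half-space at distance `h` from the
barycentre, then at least half of its measure lies in a slab of half-width `4 h`. -/
theorem exists_barycentre {K : Set E} (hK : IsCompact K) (hp : 0 < (stdGaussian E).real K) :
    ∃ x₀ : E, ∀ v : E, ∀ h : ℝ, 0 < h → (∀ x ∈ K, ⟪v, x⟫ - ⟪v, x₀⟫ ≤ h) →
      (stdGaussian E).real K / 2 ≤
        (stdGaussian E).real (K ∩ {x | |⟪v, x⟫ - ⟪v, x₀⟫| ≤ 4 * h}) := by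
  set μ := stdGaussian E with hμ
  set p := μ.real K with hpdef
  have hintid : IntegrableOn (fun x : E => x) K μ := continuous_id.continuousOn.integrableOn_compact hK
  refine ⟨p⁻¹ • ∫ x in K, x ∂μ, ?_⟩
  set x₀ : E := p⁻¹ • ∫ x in K, x ∂μ with hx₀
  intro v h hh hle
  set g : E → ℝ := fun x => ⟪v, x⟫ - ⟪v, x₀⟫ with hg
  have hgc : Continuous g := by
    rw [hg]; fun_prop
  have hgint : IntegrableOn g K μ := hgc.continuousOn.integrableOn_compact hK
  have hgabs : IntegrableOn (fun x => |g x|) K μ := hgc.abs.continuousOn.integrableOn_compact hK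
  have h0 : ∫ x in K, g x ∂μ = 0 := by
    have h1 : IntegrableOn (fun x : E => (⟪v, x⟫ : ℝ)) K μ :=
      (by fun_prop : Continuous fun x : E => (⟪v, x⟫ : ℝ)).continuousOn.integrableOn_compact hK
    rw [hg, integral_sub h1 (integrableOn_const (by exact hK.measure_lt_top.ne)),
      setIntegral_const, integral_inner hintid v]
    have h2 : ∫ x in K, x ∂μ = p • x₀ := by
      rw [hx₀, smul_smul, mul_inv_cancel₀ hp.ne', one_smul]
    rw [h2, inner_smul_right, smul_eq_mul]
    ring
  have hci : IntegrableOn (fun _ : E => 2 * h) K μ :=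
    integrableOn_const (by exact hK.measure_lt_top.ne)
  have h3 : ∫ x in K, |g x| ∂μ ≤ 2 * h * p := by
    calc ∫ x in K, |g x| ∂μ ≤ ∫ x in K, (2 * h - g x) ∂μ := by
          apply setIntegral_mono_on hgabs
          · exact hci.sub hgint
          · exact hK.measurableSet
          · intro x hx
            have h4 := hle x hx
            have h5 : g x ≤ h := h4
            rcases abs_cases (g x) with ⟨h6, h7⟩ | ⟨h6, h7⟩ <;> rw [h6] <;> linarith
      _ = 2 * h * p := by
          rw [integral_sub hci hgint, h0, setIntegral_const, smul_eq_mul, sub_zero]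
          ring
  have h4 := mul_meas_ge_le_integral_of_nonneg (μ := μ.restrict K) (f := fun x => |g x|)
    (Eventually.of_forall fun x => abs_nonneg _) hgabs (4 * h)
  have hms : MeasurableSet {x | |g x| ≤ 4 * h} :=
    (isClosed_le hgc.abs continuous_const).measurableSet
  have h5 : μ.real (K \ {x | |g x| ≤ 4 * h}) ≤ (μ.restrict K).real {x | 4 * h ≤ |g x|} := by
    rw [measureReal_restrict_apply' hK.measurableSet]
    apply measureReal_mono
    · intro x hx
      refine ⟨?_, hx.1⟩
      have := hx.2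
      simp only [Set.mem_ofPred_eq, not_le] at this
      exact this.le
    · exact measure_ne_top _ _
  have h6 : μ.real (K ∩ {x | |g x| ≤ 4 * h}) + μ.real (K \ {x | |g x| ≤ 4 * h}) = p :=
    measureReal_inter_add_sdiff hms
  have h7 : 4 * h * μ.real (K \ {x | |g x| ≤ 4 * h}) ≤ 2 * h * p := by
    refine le_trans ?_ (h4.trans h3)
    exact mul_le_mul_of_nonneg_left h5 (by linarith)
  have h8 : μ.real (K \ {x | |g x| ≤ 4 * h}) ≤ p / 2 := by
    by_contra hcon
    push Not at hcon
    nlinarith
  show p / 2 ≤ μ.real (K ∩ {x | |g x| ≤ 4 * h})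
  linarith

/-- If the ball of radius `h` about the barycentre is not contained in the body, then a widening by
a unit segment has measure at least `p / (32 h)`. -/
theorem exists_thick {K : Set E} (hconv : Convex ℝ K) (hK : IsCompact K)
    (hp : 0 < (stdGaussian E).real K) :
    ∃ x₀ : E, ∀ h : ℝ, 0 < h → ¬ Metric.closedBall x₀ h ⊆ K →
      ∃ v : E, ‖v‖ = 1 ∧ (stdGaussian E).real K ≤ 32 * h * (stdGaussian E).real (thick K v) := by
  obtain ⟨x₀, hx₀⟩ := exists_barycentre hK hp
  refine ⟨x₀, ?_⟩
  intro h hh hball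
  have hne : K.Nonempty := by
    rw [Set.nonempty_iff_ne_empty]
    rintro rfl
    simp at hp
  obtain ⟨v, hv, hvK⟩ := exists_unit_normal hconv hK.isClosed hne hball
  refine ⟨v, hv, ?_⟩
  have h1 := hx₀ v h hh hvK
  have h2 := slab_widen hK hv (⟪v, x₀⟫) (4 * h)
  have h3 : (stdGaussian E).real (K ∩ {x | |⟪v, x⟫ - ⟪v, x₀⟫| ≤ 4 * h}) ≤
      4 * (4 * h) * (stdGaussian E).real (thick K v) := by
    have h4 := ENNReal.toReal_mono (ENNReal.mul_ne_top ENNReal.ofReal_ne_top
      (measure_ne_top _ _)) h2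
    rw [ENNReal.toReal_mul, ENNReal.toReal_ofReal (by positivity)] at h4
    exact h4
  linarith

end

end Pool.Agent.Lib.MP_ff773e_gt
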