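import Mathlib
import Pool.Agent.Lib.MP_ff773e_gt.SharpA

/-!
# Balancing with the sharp dependence on the Gaussian measure
-/

set_option autoImplicit false

namespace Pool.Agent.Lib.MP_ff773e_gt

open Set MeasureTheory ProbabilityTheory Filter Topology
open scoped RealInnerProductSpace Pointwise

variable {E : Type*} [NormedAddCommGroup E] [InnerProductSpace ℝ E] [FiniteDimensional ℝ E]
  [MeasurableSpace E] [BorelSpace E]

/-- The potential argument for a symmetric closed convex set, logarithmic form. -/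
theorem signs_exp {S : Set E} (hS : Convex ℝ S) (hc : IsClosed S)
    (hsym : ∀ x ∈ S, -x ∈ S) (hne : S.Nonempty)
    {m : ℕ} (u : Fin m → E) (hu : ∀ i, ‖u i‖ ≤ 1 / 1000) :
    ∃ ε : Fin m → ℝ, (∀ i, ε i = 1 ∨ ε i = -1) ∧
      (stdGaussian E).real S ≤ Real.exp (-Metric.infDist (∑ i, ε i • u i) S) := by
  have hgood := good_infDist hS hc hne
  obtain ⟨ε, hε, h⟩ := exists_signs m u hu _ hgood (infDist_neg_of_symm hsym)
  refine ⟨ε, hε, ?_⟩
  have h1 : (stdGaussian E).real S ≤ ∫ x, Real.exp (-Metric.infDist x S) ∂(stdGaussian E) := by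
    have hint := integrable_exp_neg (stdGaussian E) hgood
    have h2 : (stdGaussian E).real S = ∫ x, S.indicator (fun _ => (1 : ℝ)) x ∂(stdGaussian E) := by
      rw [integral_indicator hc.measurableSet]
      simp
    rw [h2]
    apply integral_mono
    · exact (integrable_const (1 : ℝ)).indicator hc.measurableSet
    · exact hint
    · intro x
      by_cases hx : x ∈ S
      · simp only [Set.indicator_of_mem hx]
        rw [Metric.infDist_zero_of_mem hx]
        simp
      · simp only [Set.indicator_of_notMem hx]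
        exact (Real.exp_pos _).le
  exact h1.trans h

/-- A good centre, a good radius and a good direction: `K` contains the ball of radius `R` about
`x₀`, and after widening by a unit segment its measure is at least `p / (64 R)`. -/
theorem exists_radius [Nontrivial E] {K : Set E} (hconv : Convex ℝ K) (hK : IsCompact K)
    (hp : 0 < (stdGaussian E).real K) :
    ∃ x₀ : E, ∃ R : ℝ, 0 < R ∧ Metric.closedBall x₀ R ⊆ K ∧
      ∃ v : E, ‖v‖ = 1 ∧ (stdGaussian E).real K ≤ 64 * R * (stdGaussian E).real (thick K v) := by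
  obtain ⟨x₀, hx₀⟩ := exists_thick hconv hK hp
  set p := (stdGaussian E).real K with hpdef
  -- dyadic radii
  set r : ℕ → ℝ := fun k => p / 64 * 2 ^ k with hr
  have hrpos : ∀ k, 0 < r k := fun k => by rw [hr]; positivity
  have hsucc : ∀ k, r (k + 1) = 2 * r k := fun k => by rw [hr]; ring
  have h0 : Metric.closedBall x₀ (r 0) ⊆ K := by
    by_contra hcon
    obtain ⟨v, -, hv⟩ := hx₀ (r 0) (hrpos 0) hcon
    have h1 : (stdGaussian E).real (thick K v) ≤ 1 := measureReal_le_one
    have h2 : r 0 = p / 64 := by rw [hr]; simp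
    rw [h2] at hv
    nlinarith
  have hex : ∃ k, ¬ Metric.closedBall x₀ (r k) ⊆ K := by
    by_contra hcon
    push Not at hcon
    have huniv : K = univ := by
      rw [eq_univ_iff_forall]
      intro x
      obtain ⟨k, hk⟩ := pow_unbounded_of_one_lt (dist x x₀ / (p / 64)) (one_lt_two)
      apply hcon k
      rw [Metric.mem_closedBall]
      rw [div_lt_iff₀ (by positivity)] at hk
      show dist x x₀ ≤ p / 64 * 2 ^ k
      linarith
    have : NoncompactSpace E := NormedSpace.noncompactSpace ℝ E
    exact hK.ne_univ huniv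
  classical
  have hfind := Nat.find_spec hex
  have hpos : Nat.find hex ≠ 0 := by
    intro h
    rw [h] at hfind
    exact hfind h0
  obtain ⟨j, hj⟩ := Nat.exists_eq_succ_of_ne_zero hpos
  have hjK : Metric.closedBall x₀ (r j) ⊆ K := by
    by_contra hcon
    have := Nat.find_min' hex hcon
    omega
  rw [hj] at hfind
  obtain ⟨v, hv1, hv2⟩ := hx₀ (r (j + 1)) (hrpos _) hfind
  refine ⟨x₀, r j, hrpos j, hjK, v, hv1, ?_⟩
  rw [hsucc] at hv2
  linarith

/-- The balancing theorem with the sharp dependence on the measure: after a suitable translation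
(depending on the set only) the origin is interior and all short vectors can be balanced in the
multiple `130000 / p` of the body. -/
theorem sharp_balancing [Nontrivial E] {K : Set E} (hconv : Convex ℝ K) (hK : IsCompact K)
    (hp : 0 < (stdGaussian E).real K) :
    ∃ x₁ : E, 0 ∈ interior ((-x₁) +ᵥ K) ∧ ∀ (m : ℕ) (u : Fin m → E), (∀ i, ‖u i‖ ≤ 1) →
      ∃ ε : Fin m → ℝ, (∀ i, ε i = 1 ∨ ε i = -1) ∧
        ∑ i, ε i • u i ∈ (130000 / (stdGaussian E).real K) • ((-x₁) +ᵥ K) := by
  obtain ⟨x₀, R, hR, hball, v, hv, hthick⟩ := exists_radius hconv hK hp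
  set p := (stdGaussian E).real K with hpdef
  have hple : p ≤ 1 := measureReal_le_one
  set T : Set E := thick K v with hT
  have hTc : IsClosed T := (isCompact_thick hK v).isClosed
  have hTconv : Convex ℝ T := convex_thick hconv v
  obtain ⟨y, hy⟩ := exists_center T hTc.measurableSet
  set c : ℝ := Real.sqrt 2 / 2 with hcdef
  have hsq : Real.sqrt 2 * Real.sqrt 2 = 2 := Real.mul_self_sqrt (by norm_num)
  have hsq2 : 0 < Real.sqrt 2 := by positivity
  have hsqlt : Real.sqrt 2 < 3 / 2 := by nlinarith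
  have hcpos : 0 < c := by positivity
  set S : Set E := {x | y + c • x ∈ T ∧ y - c • x ∈ T} with hSdef
  have hSc : IsClosed S := by
    apply IsClosed.inter
    · exact hTc.preimage (by fun_prop : Continuous fun x : E => y + c • x)
    · exact hTc.preimage (by fun_prop : Continuous fun x : E => y - c • x)
  have hSconv : Convex ℝ S := by
    intro x hx z hz a b ha hb hab
    have hb' : b = 1 - a := by linarith
    constructor
    · have := hTconv hx.1 hz.1 ha hb hab
      have e : a • (y + c • x) + b • (y + c • z) = y + c • (a • x + b • z) := by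
        subst hb'
        module
      rwa [e] at this
    · have := hTconv hx.2 hz.2 ha hb hab
      have e : a • (y - c • x) + b • (y - c • z) = y - c • (a • x + b • z) := by
        subst hb'
        module
      rwa [e] at this
  have hSsym : ∀ x ∈ S, -x ∈ S := by
    intro x hx
    refine ⟨?_, ?_⟩
    · rw [smul_neg, ← sub_eq_add_neg]; exact hx.2
    · rw [smul_neg, sub_neg_eq_add]; exact hx.1
  -- the parameter `A = 64 R / p ≥ 1`
  set A : ℝ := 64 * R / p with hA
  have hApos : 0 < A := by positivity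
  set q := (stdGaussian E).real T with hq
  have hqle : q ≤ 1 := measureReal_le_one
  have hAq : 1 ≤ A * q := by
    rw [hA, div_mul_eq_mul_div, le_div_iff₀ hp]
    linarith
  have hqpos : 0 < q := by
    by_contra hcon
    push Not at hcon
    have : A * q ≤ 0 := mul_nonpos_of_nonneg_of_nonpos hApos.le hcon
    linarith
  have hA1 : 1 ≤ A := by nlinarith
  have hSq : 1 ≤ A ^ 2 * (stdGaussian E).real S := by
    have h1 : (A * q) ^ 2 ≤ A ^ 2 * (stdGaussian E).real S := by
      rw [mul_pow]
      exact mul_le_mul_of_nonneg_left hy (by positivity)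
    nlinarith
  have hSne : S.Nonempty := by
    rw [Set.nonempty_iff_ne_empty]
    intro h
    rw [h] at hSq
    simp at hSq
    linarith
  have h0S : (0 : E) ∈ S := by
    obtain ⟨a, ha⟩ := hSne
    have := hSconv ha (hSsym a ha) (show (0:ℝ) ≤ 1 / 2 by norm_num)
      (show (0:ℝ) ≤ 1 / 2 by norm_num) (by norm_num)
    have e : (1 / 2 : ℝ) • a + (1 / 2 : ℝ) • (-a) = 0 := by module
    rwa [e] at this
  obtain ⟨s₀, hs₀, hys⟩ : ∃ s ∈ Icc (-1 : ℝ) 1, y + s • v ∈ K := by
    have := h0S.1
    rw [smul_zero, add_zero] at this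
    exact this
  -- the weight `τ`
  set τ : ℝ := 130 / p - Real.sqrt 2 with hτ
  have hp1 : 1 ≤ 1 / p := by rw [le_div_iff₀ hp]; linarith
  have hτ1 : 128 / p < τ := by
    have e : 130 / p = 128 / p + 2 * (1 / p) := by ring
    rw [hτ, e]
    linarith
  have hτpos : 0 < τ := lt_trans (by positivity) hτ1
  have hτR : 2 * A < τ * R := by
    have e : 2 * A = 128 / p * R := by rw [hA]; ring
    rw [e]
    exact mul_lt_mul_of_pos_right hτ1 hR
  have hsum : Real.sqrt 2 + τ = 130 / p := by rw [hτ]; ring
  have hsumpos : 0 < Real.sqrt 2 + τ := by linarith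
  set x₁ : E := (Real.sqrt 2 / (Real.sqrt 2 + τ)) • y + (τ / (Real.sqrt 2 + τ)) • x₀ with hx₁
  refine ⟨x₁, ?_, ?_⟩
  · -- `x₁` is an interior point of `K`
    have hint : x₁ ∈ interior K := by
      have hb : x₀ - (Real.sqrt 2 * s₀ / τ) • v ∈ interior K := by
        have hsub : Metric.ball x₀ R ⊆ interior K :=
          interior_maximal (Metric.ball_subset_closedBall.trans hball) Metric.isOpen_ball
        apply hsub
        rw [Metric.mem_ball, dist_eq_norm]
        have e : x₀ - (Real.sqrt 2 * s₀ / τ) • v - x₀ = -((Real.sqrt 2 * s₀ / τ) • v) := by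
          abel
        rw [e, norm_neg, norm_smul, hv, mul_one, Real.norm_eq_abs, abs_div, abs_mul,
          abs_of_pos hsq2, abs_of_pos hτpos, div_lt_iff₀ hτpos]
        have h1 : |s₀| ≤ 1 := abs_le.2 ⟨hs₀.1, hs₀.2⟩
        nlinarith
      have h2 : x₁ = (Real.sqrt 2 / (Real.sqrt 2 + τ)) • (y + s₀ • v) +
          (τ / (Real.sqrt 2 + τ)) • (x₀ - (Real.sqrt 2 * s₀ / τ) • v) := by
        rw [hx₁]
        have e : (τ / (Real.sqrt 2 + τ)) * (Real.sqrt 2 * s₀ / τ) =
            Real.sqrt 2 / (Real.sqrt 2 + τ) * s₀ := by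
          field_simp
        rw [smul_sub, smul_smul, e]
        module
      rw [h2]
      exact hconv.combo_self_interior_mem_interior hys hb (by positivity) (by positivity)
        (by field_simp)
    rw [interior_vadd, Set.mem_vadd_set_iff_neg_vadd_mem, neg_neg, vadd_eq_add, add_zero]
    exact hint
  · intro m u hu
    obtain ⟨ε, hε, h⟩ := signs_exp hSconv hSc hSsym hSne (fun i => (1 / 1000 : ℝ) • u i) (by
      intro i
      rw [norm_smul, Real.norm_of_nonneg (by norm_num)]
      have := hu i
      linarith)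
    refine ⟨ε, hε, ?_⟩
    have hz : ∑ i, ε i • (1 / 1000 : ℝ) • u i = (1 / 1000 : ℝ) • ∑ i, ε i • u i := by
      rw [Finset.smul_sum]
      apply Finset.sum_congr rfl
      intro i _
      rw [smul_comm]
    rw [hz] at h
    set w := ∑ i, ε i • u i with hw
    obtain ⟨z, hzS, hdz⟩ := hSc.exists_infDist_eq_dist hSne ((1 / 1000 : ℝ) • w)
    rw [hdz, dist_eq_norm] at h
    set b : E := (1 / 1000 : ℝ) • w - z with hb
    -- the distance is at most `2 A - 2`
    have hd : ‖b‖ ≤ 2 * A - 2 := by
      have h1 : 1 ≤ A ^ 2 * Real.exp (-‖b‖) :=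
        hSq.trans (mul_le_mul_of_nonneg_left h (by positivity))
      have h2 : (A * Real.exp (-‖b‖ / 2)) ^ 2 = A ^ 2 * Real.exp (-‖b‖) := by
        rw [mul_pow, ← Real.exp_nat_mul]
        congr 2
        push_cast
        ring
      have h3 : 1 ≤ A * Real.exp (-‖b‖ / 2) := by
        rw [← h2] at h1
        by_contra hcon
        push Not at hcon
        have h4 : 0 < A * Real.exp (-‖b‖ / 2) := by positivity
        nlinarith
      have h5 : Real.exp (‖b‖ / 2) * Real.exp (-‖b‖ / 2) = 1 := by
        rw [← Real.exp_add, neg_div, add_neg_cancel, Real.exp_zero]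
      have h6 : Real.exp (‖b‖ / 2) ≤ A := by
        have h7 : 0 < Real.exp (‖b‖ / 2) := Real.exp_pos _
        nlinarith [mul_le_mul_of_nonneg_left h3 h7.le]
      have h8 := Real.add_one_le_exp (‖b‖ / 2)
      linarith
    obtain ⟨s, hs, hk⟩ := hzS.1
    -- the second point of `K`
    set b' : E := b - (Real.sqrt 2 * s) • v with hb'
    have hb'n : ‖b'‖ ≤ 2 * A := by
      have h1 : |s| ≤ 1 := abs_le.2 ⟨hs.1, hs.2⟩
      calc ‖b'‖ ≤ ‖b‖ + ‖(Real.sqrt 2 * s) • v‖ := norm_sub_le _ _
        _ = ‖b‖ + Real.sqrt 2 * |s| := by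
            rw [norm_smul, hv, mul_one, Real.norm_eq_abs, abs_mul, abs_of_pos hsq2]
        _ ≤ (2 * A - 2) + 2 := by nlinarith [abs_nonneg s]
        _ = 2 * A := by ring
    have hk' : x₀ + τ⁻¹ • b' ∈ K := by
      apply hball
      rw [Metric.mem_closedBall, dist_eq_norm, add_sub_cancel_left, norm_smul, norm_inv,
        Real.norm_of_nonneg hτpos.le, inv_mul_le_iff₀ hτpos]
      linarith
    set k : E := y + c • z + s • v with hkdef
    set k' : E := x₀ + τ⁻¹ • b' with hk'def
    have hkk : (Real.sqrt 2 / (Real.sqrt 2 + τ)) • k + (τ / (Real.sqrt 2 + τ)) • k' ∈ K :=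
      hconv hk hk' (by positivity) (by positivity) (by field_simp)
    rw [Set.mem_smul_set]
    refine ⟨((Real.sqrt 2 / (Real.sqrt 2 + τ)) • k + (τ / (Real.sqrt 2 + τ)) • k') - x₁, ?_, ?_⟩
    · rw [Set.mem_vadd_set_iff_neg_vadd_mem, neg_neg, vadd_eq_add, add_sub_cancel]
      exact hkk
    · have e0 : (130000 / p : ℝ) = 1000 * (Real.sqrt 2 + τ) := by
        rw [hsum]; ring
      have e1 : ((Real.sqrt 2 / (Real.sqrt 2 + τ)) • k + (τ / (Real.sqrt 2 + τ)) • k') - x₁ =
          (1 / (Real.sqrt 2 + τ)) • ((1 / 1000 : ℝ) • w) := by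
        have f1 : z = (1 / 1000 : ℝ) • w - b := by rw [hb]; abel
        have f2 : Real.sqrt 2 * c = 1 := by rw [hcdef]; linarith
        have f3 : (τ / (Real.sqrt 2 + τ)) * τ⁻¹ = 1 / (Real.sqrt 2 + τ) := by
          field_simp
        have f4 : (Real.sqrt 2 / (Real.sqrt 2 + τ)) * c = 1 / (Real.sqrt 2 + τ) := by
          rw [div_mul_eq_mul_div, f2]
        have g1 : (Real.sqrt 2 / (Real.sqrt 2 + τ)) • k =
            (Real.sqrt 2 / (Real.sqrt 2 + τ)) • y + (1 / (Real.sqrt 2 + τ)) • z +
              ((1 / (Real.sqrt 2 + τ)) * (Real.sqrt 2 * s)) • v := by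
          rw [hkdef, smul_add, smul_add, smul_smul, f4, smul_smul]
          congr 2
          ring
        have g2 : (τ / (Real.sqrt 2 + τ)) • k' =
            (τ / (Real.sqrt 2 + τ)) • x₀ + (1 / (Real.sqrt 2 + τ)) • b' := by
          rw [hk'def, smul_add, smul_smul, f3]
        rw [g1, g2, hx₁, hb', f1]
        module
      rw [e1, e0, smul_smul, smul_smul]
      have e2 : 1000 * (Real.sqrt 2 + τ) * (1 / (Real.sqrt 2 + τ)) * (1 / 1000) = 1 := by
        field_simp
      rw [e2, one_smul]

end Pool.Agent.Lib.MP_ff773e_gt
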