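import Mathlib
import Pool.Agent.Lib.MP_ff773e_gt.Body
import Pool.Agent.Lib.MP_ff773e_gt.Beta

/-!
# Lower bounds: intervals, and Euclidean balls in high dimension
-/

set_option autoImplicit false

namespace Pool.Agent.Lib.MP_ff773e_gt

open Set MeasureTheory ProbabilityTheory Filter Topology
open scoped RealInnerProductSpace Pointwise

/-! ### The Gaussian measure of Euclidean balls -/

theorem integral_exp_sq : ∫ x, Real.exp (x ^ 2 / 4) ∂(gaussianReal 0 1) = Real.sqrt 2 := by
  rw [integral_gaussianReal_eq_integral_smul one_ne_zero]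
  have h : ∀ x : ℝ, gaussianPDFReal 0 1 x • Real.exp (x ^ 2 / 4) =
      (Real.sqrt (2 * Real.pi))⁻¹ * Real.exp (-(1 / 4) * x ^ 2) := by
    intro x
    rw [pdf_eq, smul_eq_mul, mul_assoc, ← Real.exp_add]
    congr 2
    ring
  simp_rw [h]
  rw [integral_const_mul, integral_gaussian]
  have h1 : Real.pi / (1 / 4) = 2 * (2 * Real.pi) := by ring
  have h3 : Real.sqrt (2 * (2 * Real.pi)) = Real.sqrt 2 * Real.sqrt (2 * Real.pi) :=
    Real.sqrt_mul (by norm_num) _
  rw [h1, h3]
  have h2 : 0 < Real.sqrt (2 * Real.pi) := Real.sqrt_pos.2 (by positivity)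
  rw [mul_left_comm, inv_mul_cancel₀ h2.ne', mul_one]

theorem integrable_exp_sq : Integrable (fun x : ℝ => Real.exp (x ^ 2 / 4)) (gaussianReal 0 1) := by
  by_contra h
  have h1 := integral_undef h
  rw [integral_exp_sq] at h1
  have : 0 < Real.sqrt 2 := by positivity
  linarith

theorem one_sub_gam_ball (n : ℕ) :
    1 - (3 / 4 : ℝ) ^ n ≤ gam (Metric.closedBall (0 : Rn n) (2 * Real.sqrt n)) := by
  set B : Set (Rn n) := Metric.closedBall (0 : Rn n) (2 * Real.sqrt n) with hB
  set μ : Measure (Fin n → ℝ) := Measure.pi (fun _ => gaussianReal 0 1) with hμ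
  have hBm : MeasurableSet B := Metric.isClosed_closedBall.measurableSet
  have h1 : gam B = 1 - (stdGaussian (Rn n)).real Bᶜ := by
    unfold gam
    have := probReal_compl_eq_one_sub (μ := stdGaussian (Rn n)) hBm
    linarith
  have h2 : (stdGaussian (Rn n)).real Bᶜ = μ.real ((WithLp.toLp 2) ⁻¹' Bᶜ) := by
    rw [Measure.real, Measure.real, ← map_pi_eq_stdGaussian,
      Measure.map_apply (by fun_prop) hBm.compl]
  set F : (Fin n → ℝ) → ℝ := fun x => ∏ i, Real.exp (x i ^ 2 / 4) with hF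
  have hFint : Integrable F μ :=
    Integrable.fintype_prod (f := fun _ (x : ℝ) => Real.exp (x ^ 2 / 4))
      (fun _ => integrable_exp_sq)
  have hFval : ∫ x, F x ∂μ = (Real.sqrt 2) ^ n := by
    have := integral_fintype_prod_eq_pow (ι := Fin n) (μ := gaussianReal 0 1)
      (fun x : ℝ => Real.exp (x ^ 2 / 4))
    rw [integral_exp_sq, Fintype.card_fin] at this
    exact this
  have hsub : (WithLp.toLp 2) ⁻¹' Bᶜ ⊆ {x : Fin n → ℝ | Real.exp n ≤ F x} := by
    intro x hx
    have h3 : 2 * Real.sqrt n < ‖(WithLp.toLp 2 x : Rn n)‖ := by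
      have h4 : (WithLp.toLp 2 x : Rn n) ∉ B := hx
      rw [hB, mem_closedBall_zero_iff, not_le] at h4
      exact h4
    have h4 : ‖(WithLp.toLp 2 x : Rn n)‖ ^ 2 = ∑ i, x i ^ 2 := by
      rw [EuclideanSpace.real_norm_sq_eq]
    have h5 : (4 : ℝ) * n ≤ ∑ i, x i ^ 2 := by
      rw [← h4]
      have h6 : Real.sqrt n * Real.sqrt n = n := Real.mul_self_sqrt (by positivity)
      have h7 : 0 ≤ Real.sqrt n := Real.sqrt_nonneg _
      nlinarith
    show Real.exp n ≤ ∏ i, Real.exp (x i ^ 2 / 4)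
    rw [← Real.exp_sum, ← Finset.sum_div]
    apply Real.exp_le_exp.2
    linarith
  have h3 : μ.real ((WithLp.toLp 2) ⁻¹' Bᶜ) ≤ μ.real {x : Fin n → ℝ | Real.exp n ≤ F x} :=
    measureReal_mono hsub
  have h4 := mul_meas_ge_le_integral_of_nonneg (μ := μ) (f := F)
    (Eventually.of_forall fun x => Finset.prod_nonneg fun i _ => (Real.exp_pos _).le) hFint
    (Real.exp n)
  rw [hFval] at h4
  have h5 : (Real.sqrt 2) ^ n ≤ Real.exp n * (3 / 4) ^ n := by
    have h6 : Real.exp (n : ℝ) = (Real.exp 1) ^ n := by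
      rw [← Real.exp_nat_mul, mul_one]
    rw [h6, ← mul_pow]
    apply pow_le_pow_left₀ (Real.sqrt_nonneg 2)
    have h7 := Real.exp_one_gt_d9
    have h8 : Real.sqrt 2 ≤ 2 := by
      rw [Real.sqrt_le_left (by norm_num)]
      norm_num
    linarith
  have h6 : μ.real {x : Fin n → ℝ | Real.exp n ≤ F x} ≤ (3 / 4) ^ n := by
    have h7 := h4.trans h5
    exact le_of_mul_le_mul_left h7 (Real.exp_pos _)
  rw [h1, h2]
  linarith

/-- Euclidean balls of radius `2 √n` have measure close to `1`. -/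
theorem exists_ball_ge {p : ℝ} (hp : p < 1) :
    ∃ n : ℕ, 1 ≤ n ∧ p ≤ gam (Metric.closedBall (0 : Rn n) (2 * Real.sqrt n)) := by
  obtain ⟨k, hk⟩ := exists_pow_lt_of_lt_one (show 0 < 1 - p by linarith)
    (show (3 / 4 : ℝ) < 1 by norm_num)
  refine ⟨k + 1, by omega, ?_⟩
  have h1 := one_sub_gam_ball (k + 1)
  have h2 : (3 / 4 : ℝ) ^ (k + 1) ≤ (3 / 4) ^ k :=
    pow_le_pow_of_le_one (by norm_num) (by norm_num) (by omega)
  linarith

/-! ### The balancing constants of balls -/

/-- A bounded set balances the unit ball only with a large multiple: orthonormal vectors. -/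
theorem lower_bound_sqrt {n : ℕ} {W : Set (Rn n)} {R : ℝ}
    (hW : W ⊆ Metric.closedBall 0 R) {C : ℝ} (hC : 0 < C) (h : Balances C W) :
    Real.sqrt n ≤ C * R := by
  obtain ⟨ε, hε, hmem⟩ := h (fun i => EuclideanSpace.single i (1 : ℝ)) (by
    intro i
    simp)
  obtain ⟨w, hw, hwe⟩ := hmem
  have h1 : ‖w‖ ≤ R := by simpa using hW hw
  have hcoord : ∀ j, (∑ i, ε i • (EuclideanSpace.single i (1 : ℝ) : Rn n)) j = ε j := by
    intro j
    simp [Pi.single_apply]
  have h2 : ‖∑ i, ε i • (EuclideanSpace.single i (1 : ℝ) : Rn n)‖ ^ 2 = n := by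
    rw [EuclideanSpace.real_norm_sq_eq]
    have : ∀ j, (∑ i, ε i • (EuclideanSpace.single i (1 : ℝ) : Rn n)) j ^ 2 = 1 := by
      intro j
      rw [hcoord j]
      rcases hε j with h | h <;> rw [h] <;> norm_num
    rw [Finset.sum_congr rfl (fun j _ => this j)]
    simp
  have h3 : ‖∑ i, ε i • (EuclideanSpace.single i (1 : ℝ) : Rn n)‖ = C * ‖w‖ := by
    rw [← hwe]
    show ‖C • w‖ = C * ‖w‖
    rw [norm_smul, Real.norm_of_nonneg hC.le]
  have h4 : Real.sqrt n = C * ‖w‖ := by
    rw [← h3, ← h2, Real.sqrt_sq (norm_nonneg _)]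
  rw [h4]
  exact mul_le_mul_of_nonneg_left h1 hC.le

theorem vadd_ball_subset {n : ℕ} {r : ℝ} {x : Rn n}
    (hx : (0 : Rn n) ∈ interior (x +ᵥ Metric.closedBall (0 : Rn n) r)) :
    x +ᵥ Metric.closedBall (0 : Rn n) r ⊆ Metric.closedBall 0 (2 * r) := by
  have h0 : (0 : Rn n) ∈ x +ᵥ Metric.closedBall (0 : Rn n) r := interior_subset hx
  rw [Set.mem_vadd_set_iff_neg_vadd_mem, vadd_eq_add, add_zero, mem_closedBall_zero_iff,
    norm_neg] at h0
  intro y hy
  rw [Set.mem_vadd_set_iff_neg_vadd_mem, vadd_eq_add, mem_closedBall_zero_iff] at hy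
  rw [mem_closedBall_zero_iff]
  calc ‖y‖ = ‖x + (-x + y)‖ := by congr 1; abel
    _ ≤ ‖x‖ + ‖-x + y‖ := norm_add_le _ _
    _ ≤ 2 * r := by linarith

/-- In dimension one, all translates of `[-r, r]` have balancing constant at least `1 / (2 r)`. -/
theorem beta_ball_one {r : ℝ} (hr : 0 < r) {x : Rn 1}
    (hx : (0 : Rn 1) ∈ interior (x +ᵥ Metric.closedBall (0 : Rn 1) r)) :
    1 / (2 * r) ≤ beta (x +ᵥ Metric.closedBall (0 : Rn 1) r) := by
  apply le_csInf (exists_balances hx)
  intro C hC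
  exact lower_bound le_rfl (by linarith) (vadd_ball_subset hx) hC.1 hC.2

/-- All translates of the ball of radius `2 √n` have balancing constant at least `1 / 4`. -/
theorem beta_ball_sqrt {n : ℕ} (hn : 1 ≤ n) {x : Rn n}
    (hx : (0 : Rn n) ∈ interior (x +ᵥ Metric.closedBall (0 : Rn n) (2 * Real.sqrt n))) :
    1 / 4 ≤ beta (x +ᵥ Metric.closedBall (0 : Rn n) (2 * Real.sqrt n)) := by
  apply le_csInf (exists_balances hx)
  intro C hC
  have h1 := lower_bound_sqrt (vadd_ball_subset hx) hC.1 hC.2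
  have h2 : 0 < Real.sqrt n := Real.sqrt_pos.2 (by exact_mod_cast hn)
  have h3 : 1 * Real.sqrt n ≤ (4 * C) * Real.sqrt n := by linarith
  have h4 := le_of_mul_le_mul_right h3 h2
  linarith

/-- The Gaussian measure of a short interval. -/
theorem gam_interval {u : ℝ} (hu : 0 < u) (hu1 : u ≤ 1) :
    2 / 5 * u ≤ gam (Metric.closedBall (0 : Rn 1) u) := by
  set e : Rn 1 := EuclideanSpace.single 0 1 with he
  have hne : ‖e‖ = 1 := by rw [he]; simp
  have hmeas : Measurable (resample e) := (continuous_resample e).measurable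
  have hball : Metric.closedBall (0 : Rn 1) u = {x : Rn 1 | |⟪e, x⟫| ≤ u} := by
    ext x
    rw [mem_closedBall_zero_iff]
    have h1 : ‖x‖ = |⟪e, x⟫| := by
      have h2 : (⟪e, x⟫ : ℝ) = x 0 := by
        rw [he, EuclideanSpace.inner_single_left]
        simp
      rw [h2, EuclideanSpace.norm_eq]
      simp [Real.sqrt_sq_eq_abs]
    rw [h1]
    rfl
  have hms : MeasurableSet {x : Rn 1 | |⟪e, x⟫| ≤ u} :=
    (isClosed_le (by fun_prop) continuous_const).measurableSet
  have h1 : (stdGaussian (Rn 1)).real {x | |⟪e, x⟫| ≤ u} =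
      (gaussianReal 0 1).real (Icc (-u) u) := by
    rw [Measure.real, Measure.real]
    congr 1
    conv_lhs => rw [← map_resample e hne]
    rw [Measure.map_apply hmeas hms]
    have hpre : resample e ⁻¹' {x : Rn 1 | |⟪e, x⟫| ≤ u} = univ ×ˢ Icc (-u) u := by
      ext p
      have : ⟪e, resample e p⟫ = p.2 := by
        unfold resample
        rw [inner_add_right, inner_sub_right, inner_smul_right, inner_smul_right,
          real_inner_self_eq_norm_sq, hne]
        ring
      simp [this, abs_le]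
    rw [hpre, Measure.prod_prod, measure_univ, one_mul]
  unfold gam
  rw [hball, h1, gauss_real_eq]
  have h2 : ∫ x in Icc (-u) u, (Real.sqrt (2 * Real.pi))⁻¹ * Real.exp (-1 / 2) ≤
      ∫ x in Icc (-u) u, gaussianPDFReal 0 1 x := by
    apply setIntegral_mono_on
    · exact integrableOn_const (by simp)
    · exact (integrable_gaussianPDFReal 0 1).integrableOn
    · exact measurableSet_Icc
    · intro x hx
      rw [pdf_eq]
      apply mul_le_mul_of_nonneg_left _ (by positivity)
      apply Real.exp_le_exp.2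
      have h3 : x ^ 2 ≤ 1 := by nlinarith [hx.1, hx.2]
      linarith
  refine le_trans ?_ h2
  rw [setIntegral_const, measureReal_def, Real.volume_Icc, ENNReal.toReal_ofReal (by linarith),
    smul_eq_mul]
  have h4 : Real.sqrt (2 * Real.pi) * Real.exp (1 / 2) ≤ 5 := by
    have h5 : Real.exp (1 / 2) * Real.exp (1 / 2) = Real.exp 1 := by
      rw [← Real.exp_add]; norm_num
    have h6 : Real.sqrt (2 * Real.pi) * Real.sqrt (2 * Real.pi) = 2 * Real.pi :=
      Real.mul_self_sqrt (by positivity)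
    have h7 := Real.exp_one_lt_d9
    have h8 := Real.pi_lt_d2
    have h9 : (Real.sqrt (2 * Real.pi) * Real.exp (1 / 2)) *
        (Real.sqrt (2 * Real.pi) * Real.exp (1 / 2)) = 2 * Real.pi * Real.exp 1 := by
      calc _ = (Real.sqrt (2 * Real.pi) * Real.sqrt (2 * Real.pi)) *
            (Real.exp (1 / 2) * Real.exp (1 / 2)) := by ring
        _ = _ := by rw [h5, h6]
    have h10 : 2 * Real.pi * Real.exp 1 ≤ 25 := by
      have : 0 < Real.exp 1 := Real.exp_pos _
      nlinarith [Real.pi_pos]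
    by_contra hcon
    push Not at hcon
    nlinarith
  have h5 : 0 < Real.sqrt (2 * Real.pi) := Real.sqrt_pos.2 (by positivity)
  have h6 : 0 < Real.exp (1 / 2) := Real.exp_pos _
  have h7 : (Real.sqrt (2 * Real.pi))⁻¹ * Real.exp (-1 / 2) =
      (Real.sqrt (2 * Real.pi) * Real.exp (1 / 2))⁻¹ := by
    rw [mul_inv, ← Real.exp_neg]
    congr 2
    ring
  have h8 : (1 : ℝ) / 5 ≤ (Real.sqrt (2 * Real.pi) * Real.exp (1 / 2))⁻¹ := by
    rw [one_div]
    exact inv_anti₀ (by positivity) h4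
  rw [h7]
  nlinarith

theorem isConvexBody_ball {n : ℕ} {r : ℝ} (hr : 0 < r) :
    IsConvexBody (Metric.closedBall (0 : Rn n) r) := by
  refine ⟨isCompact_closedBall _ _, convex_closedBall _ _, ⟨0, ?_⟩⟩
  exact interior_maximal Metric.ball_subset_closedBall Metric.isOpen_ball
    (Metric.mem_ball_self hr)

/-- Every admissible function is at least `1 / (10 p)` on `(0, 1)`. -/
theorem le_of_admissible {g : ℝ → ℝ} (hg : AntitoneOn g (Ioo 0 1))
    (hpos : ∀ p ∈ Ioo (0 : ℝ) 1, 0 < g p)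
    (h : ∀ n : ℕ, 1 ≤ n → ∀ V : Set (Rn n), IsConvexBody V →
      (⨅ x : {x : Rn n // 0 ∈ interior (x +ᵥ V)}, beta (x.1 +ᵥ V)) ≤
        (⨅ x : Rn n, g (gam (x +ᵥ V)))) :
    ∀ p ∈ Ioo (0 : ℝ) 1, 1 / (10 * p) ≤ g p := by
  have key : ∀ (n : ℕ) (r b p : ℝ), 1 ≤ n → 0 < r → p ∈ Ioo (0 : ℝ) 1 →
      p ≤ gam (Metric.closedBall (0 : Rn n) r) →
      (∀ x : Rn n, 0 ∈ interior (x +ᵥ Metric.closedBall (0 : Rn n) r) →
        b ≤ beta (x +ᵥ Metric.closedBall (0 : Rn n) r)) → b ≤ g p := by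
    intro n r b p hn hr hp hpg hb
    have hV := isConvexBody_ball (n := n) hr
    have h1 := h n hn _ hV
    have hmem : ∀ x : Rn n, gam (x +ᵥ Metric.closedBall (0 : Rn n) r) ∈ Ioo (0 : ℝ) 1 := by
      intro x
      refine ⟨gam_pos_of_interior ?_, gam_lt_one hn (hV.1.vadd x)⟩
      rw [interior_vadd]
      exact hV.2.2.vadd_set
    have hbdd : BddBelow (range fun x : Rn n =>
        g (gam (x +ᵥ Metric.closedBall (0 : Rn n) r))) := by
      refine ⟨0, ?_⟩
      rintro _ ⟨x, rfl⟩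
      exact (hpos _ (hmem x)).le
    have h2 := h1.trans (ciInf_le hbdd 0)
    have h3 : (0 : Rn n) +ᵥ Metric.closedBall (0 : Rn n) r = Metric.closedBall (0 : Rn n) r :=
      zero_vadd _ _
    rw [h3] at h2
    have hin : (0 : Rn n) ∈ interior ((0 : Rn n) +ᵥ Metric.closedBall (0 : Rn n) r) := by
      rw [h3]
      exact interior_maximal Metric.ball_subset_closedBall Metric.isOpen_ball
        (Metric.mem_ball_self hr)
    have hne : Nonempty {x : Rn n // 0 ∈ interior (x +ᵥ Metric.closedBall (0 : Rn n) r)} :=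
      ⟨⟨0, hin⟩⟩
    have h4 : b ≤ ⨅ x : {x : Rn n // 0 ∈ interior (x +ᵥ Metric.closedBall (0 : Rn n) r)},
        beta (x.1 +ᵥ Metric.closedBall (0 : Rn n) r) := le_ciInf fun x => hb x.1 x.2
    have h5 : g (gam (Metric.closedBall (0 : Rn n) r)) ≤ g p := by
      have h6 := hmem 0
      rw [h3] at h6
      exact hg hp h6 hpg
    exact h4.trans (h2.trans h5)
  intro p hp
  have hp0 := hp.1
  have hp1 := hp.2
  rcases le_total p (2 / 5) with hle | hle
  · have h1 := gam_interval (u := 5 / 2 * p) (by positivity) (by linarith)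
    have h2 := key 1 (5 / 2 * p) (1 / (2 * (5 / 2 * p))) p le_rfl (by positivity) hp
      (by linarith) (fun x hx => beta_ball_one (by positivity) hx)
    refine le_trans ?_ h2
    apply one_div_le_one_div_of_le (by positivity)
    linarith
  · obtain ⟨n, hn, hpn⟩ := exists_ball_ge hp1
    have hs : 0 < Real.sqrt n := Real.sqrt_pos.2 (by exact_mod_cast hn)
    have h2 := key n (2 * Real.sqrt n) (1 / 4) p hn (by positivity) hp hpn
      (fun x hx => beta_ball_sqrt hn hx)
    refine le_trans ?_ h2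
    rw [div_le_div_iff₀ (by positivity) (by norm_num)]
    linarith

end Pool.Agent.Lib.MP_ff773e_gt
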